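import Mathlib

/-!
# Rational curves in smooth toric varieties, in Cox coordinates

`Fan n r`: a smooth fan in `ℤ^n` with `r` rays. The closed points of the toric variety `V` of the fan
over the algebraically closed field `k` are the coordinate vectors `x` in `k^r` whose zero set is (the
set of rays of) a cone, up to the group `G` of all `g` in `(kˣ)^r` with `∏ g_ρ ^ ⟨m, n_ρ⟩ = 1` for all
`m` (Cox). The morphisms from the projective line to `V` are the tuples of binary forms `f_ρ` of degrees
`d_ρ` with `∑ d_ρ n_ρ = 0` whose values are coordinate vectors of points (Cox: the functor of a smooth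
toric variety). The tangent space of `V` at `x` is the quotient of `k^r` by the tangent space
`{(g_ρ x_ρ) : ∑ g_ρ n_ρ = 0 in k^n}` of the `G`-orbit of `x`; this is the Euler sequence
`0 → O ⊗ Lie G → ⊕ O(D_ρ) → T_V → 0`, which is exact when the rays span `k^n`.
-/

set_option autoImplicit false

namespace Pool.Agent.ToricCurves

open MvPolynomial

/-- A smooth fan in `ℤ^n` with rays `ray ρ`, `ρ < r`; a cone is given by the set of its rays. -/
structure Fan (n r : ℕ) where
  /-- the primitive vectors of the rays -/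
  ray : Fin r → Fin n → ℤ
  /-- the sets of rays of the cones -/
  Cone : Finset (Fin r) → Prop
  /-- faces of cones are cones -/
  face : ∀ s t, Cone s → t ⊆ s → Cone t
  /-- all rays are cones -/
  single : ∀ ρ, Cone {ρ}
  /-- the zero cone -/
  zero : Cone ∅
  /-- smoothness: the rays of a cone are part of a basis of `ℤ^n` -/
  smooth : ∀ s, Cone s → ∃ (b : Module.Basis (Fin n) ℤ (Fin n → ℤ)) (e : s ↪ Fin n),
    ∀ ρ : s, b (e ρ) = ray ρ
  /-- two cones meet in a common face -/
  inter : ∀ s t, Cone s → Cone t → ∀ a b : Fin r → ℤ, (∀ ρ, 0 ≤ a ρ) → (∀ ρ, 0 ≤ b ρ) →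
    (∀ ρ ∉ s, a ρ = 0) → (∀ ρ ∉ t, b ρ = 0) → ∑ ρ, a ρ • ray ρ = ∑ ρ, b ρ • ray ρ → a = b

variable {n r : ℕ} (F : Fan n r) (k : Type) [Field k]

/-- The rays span `k^n`. -/
def RaysSpan : Prop := Submodule.span k (Set.range fun (ρ : Fin r) (i : Fin n) => (F.ray ρ i : k)) = ⊤

variable {k}

/-- `x` is the coordinate vector of a point of `V`: its zero set is a cone. -/
def IsPoint (x : Fin r → k) : Prop := ∃ s, F.Cone s ∧ ∀ ρ, ρ ∈ s ↔ x ρ = 0

/-- `x` and `y` are coordinate vectors of the same point: `y = g x` with `g` in `G`. -/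
def Same (x y : Fin r → k) : Prop :=
  ∃ g : Fin r → kˣ, (∀ i, ∏ ρ, g ρ ^ F.ray ρ i = 1) ∧ ∀ ρ, y ρ = g ρ * x ρ

/-- `a` is zero in the tangent space of `V` at the point `x`. -/
def ZeroAt (x a : Fin r → k) : Prop :=
  ∃ g : Fin r → k, (∀ i, ∑ ρ, g ρ * F.ray ρ i = 0) ∧ ∀ ρ, a ρ = g ρ * x ρ

/-- `h` is a binary form of degree `d` (`0` if `d < 0`). -/
def IsForm (d : ℤ) (h : MvPolynomial (Fin 2) k) : Prop :=
  if 0 ≤ d then h.IsHomogeneous d.toNat else h = 0

variable (k) in
/-- A morphism from the projective line to `V`. -/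
structure Curve where
  /-- the degrees -/
  deg : Fin r → ℤ
  /-- the forms -/
  form : Fin r → MvPolynomial (Fin 2) k
  isForm : ∀ ρ, IsForm (deg ρ) (form ρ)
  balanced : ∑ ρ, deg ρ • F.ray ρ = 0
  isPoint : ∀ p : Fin 2 → k, p ≠ 0 → IsPoint F fun ρ => eval p (form ρ)

variable {F}

/-- The coordinates of the value of the curve at the point `p` of the projective line. -/
noncomputable def Curve.val (C : Curve F k) (p : Fin 2 → k) : Fin r → k := fun ρ => eval p (C.form ρ)

/-- The derivative of the curve at `p` in the direction `w`. -/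
noncomputable def Curve.der (C : Curve F k) (p w : Fin 2 → k) : Fin r → k :=
  fun ρ => ∑ l, w l * eval p (pderiv l (C.form ρ))

/-- `I` defines a closed subset `Z` of `V` of codimension at least two: its zero set in `k^r` is stable
under `G`, and no irreducible polynomial divides all its members (so the zero set in `k^r` contains no
hypersurface). Every closed subset of codimension at least two arises in this way. -/
structure IsCodimTwo (F : Fan n r) (I : Ideal (MvPolynomial (Fin r) k)) : Prop where
  stable : ∀ x y, Same F x y → (∀ G ∈ I, eval x G = 0) → ∀ G ∈ I, eval y G = 0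
  codim : ∀ π : MvPolynomial (Fin r) k, Irreducible π → ∃ G ∈ I, ¬ π ∣ G

/-- The curve does not meet the closed subset defined by `I`. -/
def Curve.Avoids (C : Curve F k) (I : Ideal (MvPolynomial (Fin r) k)) : Prop :=
  ∀ p : Fin 2 → k, p ≠ 0 → ∃ G ∈ I, eval (C.val p) G ≠ 0

/-- The curve is very free: the global sections of the pullback of the tangent bundle of `V` (they are
given by the tuples of binary forms of the degrees `deg ρ`) take any prescribed values `a`, `b` at any
two distinct points `p`, `q` of the projective line. For a vector bundle `⊕ O(a_i)` this holds iff all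
`a_i ≥ 1`. -/
def Curve.VeryFree (C : Curve F k) : Prop :=
  ∀ p q : Fin 2 → k, LinearIndependent k ![p, q] → ∀ a b : Fin r → k,
    ∃ h : Fin r → MvPolynomial (Fin 2) k, (∀ ρ, IsForm (C.deg ρ) (h ρ)) ∧
      ZeroAt F (C.val p) (fun ρ => eval p (h ρ) - a ρ) ∧
      ZeroAt F (C.val q) (fun ρ => eval q (h ρ) - b ρ)

/-- The curve passes through the point `x` exactly once and with nonzero derivative; so `x` is a smooth
point of the image curve. -/
def Curve.SmoothAt (C : Curve F k) (x : Fin r → k) : Prop :=
  ∃ p : Fin 2 → k, p ≠ 0 ∧ Same F x (C.val p) ∧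
    (∀ q : Fin 2 → k, q ≠ 0 → Same F x (C.val q) → ∃ c : k, q = c • p) ∧
    ∀ w : Fin 2 → k, ZeroAt F (C.val p) (C.der p w) → ∃ c : k, w = c • p

/-- The curve passes through the point `x` with the tangent vector `h`. -/
def Curve.HasTangent (C : Curve F k) (x h : Fin r → k) : Prop :=
  ∃ p : Fin 2 → k, p ≠ 0 ∧ C.val p = x ∧ ∃ w : Fin 2 → k, C.der p w = h

end Pool.Agent.ToricCurves
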