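import Pool.Agent.Lib_MP_1858fb.Main

/-! Dimension one: the projective line. -/

set_option autoImplicit false

namespace Pool.Agent.ToricCurves

open MvPolynomial

variable {r : ℕ} {k : Type} [Field k]

theorem ray_unit (F : Fan 1 r) (ρ : Fin r) : F.ray ρ 0 = 1 ∨ F.ray ρ 0 = -1 := by
  classical
  obtain ⟨b, e, h⟩ := F.smooth {ρ} (F.single ρ)
  have h1 := h ⟨ρ, Finset.mem_singleton_self ρ⟩
  have h2 : e ⟨ρ, Finset.mem_singleton_self ρ⟩ = 0 := Subsingleton.elim _ _
  rw [h2] at h1
  have h3 := b.sum_repr (Pi.single 0 (1 : ℤ))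
  rw [Fin.sum_univ_one] at h3
  have h4 := congrFun h3 0
  simp only [Pi.smul_apply, smul_eq_mul, Pi.single_eq_same] at h4
  change _ * b 0 0 = 1 at h4
  rw [h1] at h4
  have h5 : IsUnit (F.ray ρ 0) := isUnit_iff_exists_inv'.2 ⟨_, h4⟩
  exact Int.isUnit_iff.1 h5

theorem ray_inj (F : Fan 1 r) (ρ ρ' : Fin r) (h : F.ray ρ 0 = F.ray ρ' 0) : ρ = ρ' := by
  classical
  by_contra hne
  have hr : F.ray ρ = F.ray ρ' := by
    funext i
    rw [Subsingleton.elim i 0, h]
  have h1 := F.inter {ρ} {ρ'} (F.single ρ) (F.single ρ') (Pi.single ρ 1) (Pi.single ρ' 1)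
    (fun σ => by
      by_cases hs : σ = ρ
      · rw [hs]; simp
      · simp [hs])
    (fun σ => by
      by_cases hs : σ = ρ'
      · rw [hs]; simp
      · simp [hs])
    (fun σ hσ => by
      rw [Finset.mem_singleton] at hσ
      simp [hσ])
    (fun σ hσ => by
      rw [Finset.mem_singleton] at hσ
      simp [hσ])
    (by
      rw [Finset.sum_eq_single ρ, Finset.sum_eq_single ρ']
      · simp [hr]
      · intro σ _ hσ
        simp [hσ]
      · simp
      · intro σ _ hσ
        simp [hσ]
      · simp)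
  have h2 := congrFun h1 ρ
  rw [Pi.single_eq_same, Pi.single_eq_of_ne hne] at h2
  exact one_ne_zero h2

theorem exists_two (F : Fan 1 r) (hr : Nonempty (Fin r)) (e : Fin r → ℤ) (he : ∀ ρ, 0 < e ρ)
    (hbal : ∀ i, ∑ ρ, e ρ * F.ray ρ i = 0) :
    ∃ a b : Fin r, a ≠ b ∧ F.ray a 0 = 1 ∧ F.ray b 0 = -1 ∧ ∀ ρ, ρ = a ∨ ρ = b := by
  have hpos : ∃ a, F.ray a 0 = 1 := by
    by_contra hcon
    push Not at hcon
    have h1 : ∀ ρ, F.ray ρ 0 = -1 := fun ρ => (ray_unit F ρ).resolve_left (hcon ρ)
    have h2 : ∑ ρ, e ρ * F.ray ρ 0 < 0 := by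
      obtain ⟨ρ⟩ := hr
      apply Finset.sum_neg
      · intro ρ _
        rw [h1]
        have := he ρ
        omega
      · exact ⟨ρ, Finset.mem_univ ρ⟩
    have := hbal 0
    omega
  have hneg : ∃ b, F.ray b 0 = -1 := by
    by_contra hcon
    push Not at hcon
    have h1 : ∀ ρ, F.ray ρ 0 = 1 := fun ρ => (ray_unit F ρ).resolve_right (hcon ρ)
    have h2 : 0 < ∑ ρ, e ρ * F.ray ρ 0 := by
      obtain ⟨ρ⟩ := hr
      apply Finset.sum_pos
      · intro ρ _
        rw [h1]
        have := he ρ
        omega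
      · exact ⟨ρ, Finset.mem_univ ρ⟩
    have := hbal 0
    omega
  obtain ⟨a, ha⟩ := hpos
  obtain ⟨b, hb⟩ := hneg
  refine ⟨a, b, ?_, ha, hb, fun ρ => ?_⟩
  · rintro rfl
    omega
  · rcases ray_unit F ρ with h | h
    · exact Or.inl (ray_inj F ρ a (by rw [h, ha]))
    · exact Or.inr (ray_inj F ρ b (by rw [h, hb]))

theorem one_avoid [Infinite k] (I : Ideal (MvPolynomial (Fin r) k)) (hI : Small I) (a b : Fin r)
    (hab : a ≠ b) (hall : ∀ ρ, ρ = a ∨ ρ = b) (z : Fin r → k) (hz : z a ≠ 0)
    (hzI : ∀ c : k, c ≠ 0 → ∀ G ∈ I, eval (fun ρ => c * z ρ) G = 0) : False := by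
  classical
  obtain ⟨y, hy1, _, hy2⟩ := gp ∅ r (fun ρ => if ρ = b then Polynomial.X else 0)
    (fun _ => 1) (fun _ t _ => by simp) I hI 1 (X a) one_ne_zero (X_ne_zero a)
  rw [eval_X] at hy2
  obtain ⟨G, hG, hG1⟩ := hy1 (z b * y a / z a - y b) (by simp)
  apply hG1
  have h1 := hzI (y a / z a) (div_ne_zero hy2 hz) G hG
  rw [← h1]
  congr 1
  congr 1
  funext ρ
  rcases hall ρ with h | h
  · subst h
    rw [if_neg hab]
    simp only [Polynomial.eval_zero, Polynomial.eval_one]
    field_simp
    ring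
  · subst h
    rw [if_pos rfl]
    simp only [Polynomial.eval_X, Polynomial.eval_one]
    field_simp
    ring

theorem exists_curve_one [Infinite k] (F : Fan 1 r) (hr : Nonempty (Fin r)) (e : Fin r → ℤ)
    (he : ∀ ρ, 0 < e ρ) (hbal : ∀ i, ∑ ρ, e ρ * F.ray ρ i = 0) (I : Ideal (MvPolynomial (Fin r) k))
    (hI : IsCodimTwo F I) :
    ∃ C : Curve F k, C.VeryFree ∧ C.Avoids I ∧ ∀ v h : Fin r → k, IsPoint F v → C.SmoothAt v ∧
      C.HasTangent v h := by
  classical
  obtain ⟨a, b, hab, ha, hb, hall⟩ := exists_two F hr e he hbal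
  have hsum : ∀ φ : Fin r → k, ∑ ρ, φ ρ = φ a + φ b := by
    intro φ
    rw [← Finset.sum_pair hab]
    refine (Finset.sum_subset (Finset.subset_univ _) fun ρ _ hρ => ?_).symm
    exfalso
    apply hρ
    rcases hall ρ with h | h
    · rw [h]; simp
    · rw [h]; simp
  have hprod : ∀ φ : Fin r → kˣ, ∏ ρ, φ ρ = φ a * φ b := by
    intro φ
    rw [← Finset.prod_pair hab]
    refine (Finset.prod_subset (Finset.subset_univ _) fun ρ _ hρ => ?_).symm
    exfalso
    apply hρ
    rcases hall ρ with h | h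
    · rw [h]; simp
    · rw [h]; simp
  have hsumZ : ∀ φ : Fin r → ℤ, ∑ ρ, φ ρ = φ a + φ b := by
    intro φ
    rw [← Finset.sum_pair hab]
    refine (Finset.sum_subset (Finset.subset_univ _) fun ρ _ hρ => ?_).symm
    exfalso
    apply hρ
    rcases hall ρ with h | h
    · rw [h]; simp
    · rw [h]; simp
  have hv0 : ∀ v : Fin r → k, IsPoint F v → ¬ (v a = 0 ∧ v b = 0) := by
    rintro v ⟨s, hs, hv⟩ ⟨h1, h2⟩
    obtain ⟨_, ε, _⟩ := F.smooth s hs
    have h3 := ε.injective (Subsingleton.elim (ε ⟨a, (hv a).2 h1⟩) (ε ⟨b, (hv b).2 h2⟩))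
    exact hab (congrArg Subtype.val h3)
  have hpt : ∀ p : Fin 2 → k, p ≠ 0 → IsPoint F (fun ρ => if ρ = a then p 0 else p 1) := by
    intro p hp
    by_cases h0 : p 0 = 0
    · refine ⟨{a}, F.single a, fun ρ => ?_⟩
      rw [Finset.mem_singleton]
      constructor
      · intro h
        simp only [if_pos h, h0]
      · intro h
        by_contra hne
        simp only [if_neg hne] at h
        apply hp
        funext i
        fin_cases i
        · exact h0
        · exact h
    · by_cases h1 : p 1 = 0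
      · refine ⟨{b}, F.single b, fun ρ => ?_⟩
        rw [Finset.mem_singleton]
        constructor
        · intro h
          have h2 : ρ ≠ a := fun h' => hab (h'.symm.trans h)
          simp only [if_neg h2, h1]
        · intro h
          rcases hall ρ with hρ | hρ
          · simp only [if_pos hρ] at h
            exact absurd h h0
          · exact hρ
      · refine ⟨∅, F.zero, fun ρ => ?_⟩
        simp only [Finset.notMem_empty, false_iff]
        split_ifs
        · exact h0
        · exact h1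
  let Γ : Curve F k :=
    { deg := fun _ => 1
      form := fun ρ => if ρ = a then X 0 else X 1
      isForm := fun ρ => by
        rw [IsForm, if_pos (by norm_num)]
        split_ifs
        · exact isHomogeneous_X k 0
        · exact isHomogeneous_X k 1
      balanced := by
        funext i
        rw [Finset.sum_apply, Subsingleton.elim i 0]
        simp only [Pi.smul_apply, smul_eq_mul, one_mul, Pi.zero_apply]
        rw [hsumZ (fun ρ => F.ray ρ 0), ha, hb]
        norm_num
      isPoint := fun p hp => by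
        have h1 : (fun ρ => eval p (if ρ = a then X 0 else X 1)) =
            fun ρ => if ρ = a then p 0 else p 1 := by
          funext ρ
          split_ifs <;> rw [eval_X]
        rw [h1]
        exact hpt p hp }
  have hval : ∀ p ρ, Γ.val p ρ = if ρ = a then p 0 else p 1 := by
    intro p ρ
    change eval p (if ρ = a then X 0 else X 1) = _
    split_ifs <;> rw [eval_X]
  have hder : ∀ p w ρ, Γ.der p w ρ = if ρ = a then w 0 else w 1 := by
    intro p w ρ
    change ∑ l, w l * eval p (pderiv l (if ρ = a then X 0 else X 1)) = _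
    rw [Fin.sum_univ_two]
    split_ifs
    · rw [pderiv_X_self, pderiv_X_of_ne (by decide)]
      simp
    · rw [pderiv_X_self, pderiv_X_of_ne (by decide)]
      simp
  have hvv : ∀ v : Fin r → k, Γ.val ![v a, v b] = v := by
    intro v
    funext ρ
    rw [hval]
    rcases hall ρ with h | h
    · rw [if_pos h, h]
      rfl
    · rw [if_neg (fun h' => hab (h'.symm.trans h)), h]
      rfl
  have hp : ∀ v : Fin r → k, IsPoint F v → (![v a, v b] : Fin 2 → k) ≠ 0 := by
    intro v hv h0
    exact hv0 v hv ⟨congrFun h0 0, congrFun h0 1⟩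
  refine ⟨Γ, ?_, ?_, fun v h hv => ⟨⟨![v a, v b], hp v hv, ?_, ?_, ?_⟩,
    ⟨![v a, v b], hp v hv, hvv v, ![h a, h b], ?_⟩⟩⟩
  · intro p q hpq α β
    choose H hH hHp hHq using fun ρ => two_values hpq 1 one_pos (α ρ) (β ρ)
    refine ⟨H, fun ρ => ?_, ⟨fun _ => 0, fun i => by simp, fun ρ => ?_⟩,
      ⟨fun _ => 0, fun i => by simp, fun ρ => ?_⟩⟩
    · change IsForm 1 (H ρ)
      rw [IsForm, if_pos (by norm_num)]
      exact hH ρ
    · simp [hHp ρ]
    · simp [hHq ρ]
  · intro p hp
    by_contra hcon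
    push Not at hcon
    have hsc : ∀ c : k, c ≠ 0 → ∀ G ∈ I, eval (fun ρ => c * Γ.val p ρ) G = 0 := by
      intro c hc
      refine hI.stable (Γ.val p) _ ⟨fun _ => Units.mk0 c hc, fun i => ?_, fun ρ => rfl⟩ hcon
      rw [hprod, Subsingleton.elim i 0, ha, hb, zpow_one, zpow_neg_one, mul_inv_cancel]
    have hS : Small I := small_of_key a hI.codim
    by_cases h0 : Γ.val p a = 0
    · have h1 : Γ.val p b ≠ 0 := by
        intro h1
        apply hp
        rw [hval, if_pos rfl] at h0
        rw [hval, if_neg (fun h' => hab h'.symm)] at h1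
        funext i
        fin_cases i
        · exact h0
        · exact h1
      exact one_avoid I hS b a hab.symm (fun ρ => (hall ρ).symm) _ h1 hsc
    · exact one_avoid I hS a b hab hall _ h0 hsc
  · rw [hvv]
    exact same_refl v
  · rintro q hq ⟨g, hg, hgv⟩
    have h1 := hg 0
    rw [hprod, ha, hb, zpow_one, zpow_neg_one, mul_inv_eq_one] at h1
    have h2 := hgv a
    have h3 := hgv b
    rw [hval, if_pos rfl] at h2
    rw [hval, if_neg (fun h' => hab h'.symm), ← h1] at h3
    refine ⟨g a, ?_⟩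
    funext l
    fin_cases l
    · simpa using h2
    · simpa using h3
  · rintro w ⟨g, hg, hgw⟩
    rw [hvv] at hgw
    have h1 := hg 0
    rw [hsum, ha, hb] at h1
    have h4 : g a = g b := by
      push_cast at h1
      linear_combination h1
    have h2 := hgw a
    have h3 := hgw b
    rw [hder, if_pos rfl] at h2
    rw [hder, if_neg (fun h' => hab h'.symm), ← h4] at h3
    refine ⟨g a, ?_⟩
    funext l
    fin_cases l
    · simpa using h2
    · simpa using h3
  · funext ρ
    rw [hder]
    rcases hall ρ with h' | h'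
    · rw [if_pos h', h']
      rfl
    · rw [if_neg (fun h'' => hab (h''.symm.trans h')), h']
      rfl

end Pool.Agent.ToricCurves
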