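import Mathlib

/-! Elimination of one variable from an ideal without common factor. -/

set_option autoImplicit false

open Polynomial

namespace Pool.Agent.ToricCurves

/-- an ideal of `R[X]` without common irreducible factor contains a nonzero constant -/
theorem exists_C_mem {R : Type} [CommRing R] [IsDomain R] [UniqueFactorizationMonoid R]
    (J : Ideal R[X]) (h0 : J ≠ ⊥) (h : ∀ π : R[X], Irreducible π → ∃ F ∈ J, ¬ π ∣ F) :
    ∃ g : R, g ≠ 0 ∧ C g ∈ J := by
  classical
  have : NormalizedGCDMonoid R := Classical.arbitrary (NormalizedGCDMonoid R)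
  let K := FractionRing R
  let _ : Algebra R[X] K[X] := Polynomial.algebra ..
  have : IsLocalization ((nonZeroDivisors R).map (C : R →+* R[X])) K[X] :=
    Polynomial.isLocalization _ _
  have halg : ∀ F : R[X], algebraMap R[X] K[X] F = F.map (algebraMap R K) := fun F => rfl
  by_cases htop : J.map (algebraMap R[X] K[X]) = ⊤
  · have h1 : (1 : K[X]) ∈ J.map (algebraMap R[X] K[X]) := by rw [htop]; trivial
    rw [IsLocalization.mem_map_algebraMap_iff ((nonZeroDivisors R).map (C : R →+* R[X]))] at h1
    obtain ⟨⟨⟨F, hF⟩, ⟨s, hs⟩⟩, hx⟩ := h1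
    obtain ⟨g, hg, rfl⟩ := hs
    refine ⟨g, nonZeroDivisors.ne_zero hg, ?_⟩
    simp only [one_mul] at hx
    have h2 : (C g : R[X]) = F := by
      apply Polynomial.map_injective (algebraMap R K) (IsFractionRing.injective R K)
      rw [← halg, ← halg]
      exact hx
    rw [h2]
    exact hF
  · exfalso
    obtain ⟨d, hd⟩ := (IsPrincipalIdealRing.principal (J.map (algebraMap R[X] K[X]))).principal
    have hd0 : d ≠ 0 := by
      rintro rfl
      obtain ⟨F, hF, hF0⟩ := Submodule.exists_mem_ne_zero_of_ne_bot h0
      have h2 : algebraMap R[X] K[X] F ∈ J.map (algebraMap R[X] K[X]) :=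
        Ideal.mem_map_of_mem _ hF
      rw [hd] at h2
      have h3 : algebraMap R[X] K[X] F = 0 := by simpa using h2
      rw [halg, Polynomial.map_eq_zero_iff (IsFractionRing.injective R K)] at h3
      exact hF0 h3
    have hdu : ¬ IsUnit d := by
      intro hu
      apply htop
      rw [hd]
      exact Ideal.span_singleton_eq_top.2 hu
    obtain ⟨c, c0, hc⟩ := IsLocalization.integerNormalization_spec (nonZeroDivisors R) d
    set e : R[X] := IsLocalization.integerNormalization (nonZeroDivisors R) d with he
    have hc0 : (algebraMap R K c) ≠ 0 := by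
      intro h5
      rw [map_eq_zero_iff _ (IsFractionRing.injective R K)] at h5
      exact nonZeroDivisors.ne_zero c0 h5
    have hce : e.map (algebraMap R K) = C (algebraMap R K c) * d := by
      rw [hc, Algebra.smul_def]
      rfl
    have he0 : e ≠ 0 := by
      intro h6
      rw [h6, Polynomial.map_zero] at hce
      have h7 : C (algebraMap R K c) ≠ 0 := by rwa [Ne, C_eq_zero]
      exact mul_ne_zero h7 hd0 hce.symm
    have hcont : e.content ≠ 0 := by rwa [Ne, content_eq_zero_iff]
    have hp : e.primPart.IsPrimitive := e.isPrimitive_primPart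
    have hdp : (e.primPart).map (algebraMap R K) ∣ d := by
      have h8 : e.map (algebraMap R K) = C (algebraMap R K e.content) *
          (e.primPart).map (algebraMap R K) := by
        conv_lhs => rw [e.eq_C_content_mul_primPart]
        rw [Polynomial.map_mul, map_C]
      have hu : IsUnit (C (algebraMap R K c)) := isUnit_C.2 (isUnit_iff_ne_zero.2 hc0)
      have h9 : (e.primPart).map (algebraMap R K) ∣ C (algebraMap R K c) * d := by
        rw [← hce, h8]
        exact dvd_mul_left _ _
      exact (IsUnit.dvd_mul_left hu).1 h9
    have hpd : d ∣ (e.primPart).map (algebraMap R K) := by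
      have h8 : e.map (algebraMap R K) = C (algebraMap R K e.content) *
          (e.primPart).map (algebraMap R K) := by
        conv_lhs => rw [e.eq_C_content_mul_primPart]
        rw [Polynomial.map_mul, map_C]
      have hu : IsUnit (C (algebraMap R K e.content)) := by
        refine isUnit_C.2 (isUnit_iff_ne_zero.2 ?_)
        rwa [Ne, map_eq_zero_iff _ (IsFractionRing.injective R K)]
      have h9 : d ∣ C (algebraMap R K e.content) * (e.primPart).map (algebraMap R K) := by
        rw [← h8, hce]
        exact dvd_mul_left _ _
      exact (IsUnit.dvd_mul_left hu).1 h9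
    have hpu : ¬ IsUnit e.primPart := by
      intro hu
      apply hdu
      have h10 : IsUnit ((e.primPart).map (algebraMap R K)) :=
        hu.map (Polynomial.mapRingHom (algebraMap R K))
      exact isUnit_of_dvd_unit hpd h10
    obtain ⟨π, hπ, hπd⟩ := WfDvdMonoid.exists_irreducible_factor hpu hp.ne_zero
    obtain ⟨F, hF, hFπ⟩ := h π hπ
    apply hFπ
    refine hπd.trans ?_
    apply hp.dvd_of_fraction_map_dvd_fraction_map (K := K)
    have h2 : algebraMap R[X] K[X] F ∈ J.map (algebraMap R[X] K[X]) := Ideal.mem_map_of_mem _ hF
    rw [hd] at h2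
    exact hdp.trans (Ideal.mem_span_singleton.1 h2)

end Pool.Agent.ToricCurves
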