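import Pool.Agent.Lib_MP_1858fb.Main

/-! Very free curves through given points of a smooth toric variety: the construction. -/

set_option autoImplicit false

namespace Pool.Agent.ToricCurves

open Polynomial

variable {n r : ℕ} {F : Fan n r} {k : Type} [Field k]

/-- the perturbation polynomials -/
noncomputable def pert {m : ℕ} (a : Fin (m + 1) → k) (d : ℕ) : k[X] :=
  (∏ i, (X - C (a i)) ^ 2) * (X - C (a 0)) ^ (d - 2 * (m + 1))

theorem pert_monic {m : ℕ} (a : Fin (m + 1) → k) (d : ℕ) : (pert a d).Monic :=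
  (monic_prod_of_monic _ _ fun i _ => (monic_X_sub_C (a i)).pow 2).mul
    ((monic_X_sub_C (a 0)).pow _)

theorem pert_natDegree {m : ℕ} (a : Fin (m + 1) → k) (d : ℕ) (hd : 2 * (m + 1) ≤ d) :
    (pert a d).natDegree = d := by
  have h1 : (∏ i, (X - C (a i)) ^ 2).Monic :=
    monic_prod_of_monic _ _ fun i _ => (monic_X_sub_C (a i)).pow 2
  rw [pert, h1.natDegree_mul ((monic_X_sub_C (a 0)).pow _),
    natDegree_prod_of_monic _ _ fun i _ => (monic_X_sub_C (a i)).pow 2]
  simp only [natDegree_pow, natDegree_X_sub_C, mul_one, Finset.sum_const, Finset.card_univ,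
    Fintype.card_fin, smul_eq_mul]
  omega

theorem pert_eval {m : ℕ} (a : Fin (m + 1) → k) (d : ℕ) (t : k) (ht : ∀ i, t ≠ a i) :
    (pert a d).eval t ≠ 0 := by
  rw [pert, eval_mul, eval_prod, eval_pow]
  refine mul_ne_zero (Finset.prod_ne_zero_iff.2 fun i _ => ?_) ?_
  · rw [eval_pow, eval_sub, eval_X, eval_C]
    exact pow_ne_zero _ (sub_ne_zero.2 (ht i))
  · rw [eval_sub, eval_X, eval_C]
    exact pow_ne_zero _ (sub_ne_zero.2 (ht 0))

theorem pert_dvd {m : ℕ} (a : Fin (m + 1) → k) (d : ℕ) (i : Fin (m + 1)) :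
    (X - C (a i)) ^ 2 ∣ pert a d :=
  (Finset.dvd_prod_of_mem _ (Finset.mem_univ i)).mul_right _

theorem pert_at {m : ℕ} (a : Fin (m + 1) → k) (d : ℕ) (i : Fin (m + 1)) :
    (pert a d).eval (a i) = 0 ∧ (pert a d).derivative.eval (a i) = 0 := by
  obtain ⟨R, hR⟩ := pert_dvd a d i
  rw [hR]
  constructor
  · simp
  · rw [derivative_mul, derivative_pow]
    simp

/-- **The construction.** -/
theorem exists_curve [Infinite k] (hn : 2 ≤ n) (hspan : RaysSpan F k) (e : Fin r → ℤ)
    (he : ∀ ρ, 0 < e ρ) (hbal : ∀ i, ∑ ρ, e ρ * F.ray ρ i = 0) {m : ℕ}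
    (v h : Fin (m + 1) → Fin r → k) (hv : ∀ i, IsPoint F (v i))
    (hdist : ∀ i j, Same F (v i) (v j) → i = j) (hh : ∀ i, ¬ ZeroAt F (v i) (h i))
    (I : Ideal (MvPolynomial (Fin r) k)) (hI : IsCodimTwo F I)
    (hvI : ∀ i, ∃ G ∈ I, MvPolynomial.eval (v i) G ≠ 0) :
    ∃ C : Curve F k, C.VeryFree ∧ C.Avoids I ∧
      ∀ i, C.SmoothAt (v i) ∧ C.HasTangent (v i) (h i) := by
  classical
  -- the points of the line
  obtain ⟨a, ha⟩ : ∃ a : Fin (m + 1) → k, Function.Injective a :=
    ⟨fun i => Infinite.natEmbedding k i, fun i j hij =>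
      Fin.ext ((Infinite.natEmbedding k).injective hij)⟩
  set A : Finset k := Finset.univ.image a with hA
  have hmemA : ∀ t, t ∉ A → ∀ i, t ≠ a i := by
    intro t ht i hti
    exact ht (Finset.mem_image.2 ⟨i, Finset.mem_univ i, hti.symm⟩)
  choose P hP using fun ρ => hermite a ha (fun i => v i ρ) (fun i => h i ρ)
  set D : ℕ := 2 * (m + 1) + 1 + ∑ ρ, (P ρ).natDegree with hD
  set d : Fin r → ℕ := fun ρ => D * (e ρ).toNat with hd
  have hE : ∀ ρ, 1 ≤ (e ρ).toNat := by
    intro ρ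
    have := he ρ
    omega
  have hDd : ∀ ρ, D ≤ d ρ := fun ρ => Nat.le_mul_of_pos_right D (hE ρ)
  have hPd : ∀ ρ, (P ρ).natDegree < d ρ := by
    intro ρ
    have h1 : (P ρ).natDegree ≤ ∑ ρ, (P ρ).natDegree :=
      Finset.single_le_sum (f := fun ρ => (P ρ).natDegree) (fun _ _ => Nat.zero_le _)
        (Finset.mem_univ ρ)
    have := hDd ρ
    omega
  have hd2 : ∀ ρ, 2 * (m + 1) ≤ d ρ := by
    intro ρ
    have := hDd ρ
    omega
  have hdpos : ∀ ρ, 0 < d ρ := by
    intro ρ
    have := hd2 ρ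
    omega
  have hdbal : ∀ i, ∑ ρ, (d ρ : ℤ) * F.ray ρ i = 0 := by
    intro i
    have h1 : ∀ ρ, (d ρ : ℤ) * F.ray ρ i = D * (e ρ * F.ray ρ i) := by
      intro ρ
      rw [hd]
      push_cast
      rw [Int.toNat_of_nonneg (he ρ).le, mul_assoc]
    simp only [h1]
    rw [← Finset.mul_sum, hbal, mul_zero]
  set Q : Fin r → k[X] := fun ρ => pert a (d ρ) with hQ
  have hsmall := badIdeal_small hn hspan v I hI
  obtain ⟨G0, hG0, hG0n⟩ := Submodule.exists_mem_ne_zero_of_ne_bot hsmall.1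
  obtain ⟨y, hy1, _, hy2⟩ := gp A r P Q (fun ρ t ht => pert_eval a (d ρ) t (hmemA t ht))
    (badIdeal F v I) hsmall 1 (G0 * ∏ ρ, MvPolynomial.X ρ) one_ne_zero
    (mul_ne_zero hG0n (Finset.prod_ne_zero_iff.2 fun ρ _ => MvPolynomial.X_ne_zero ρ))
  rw [map_mul, map_prod] at hy2
  have hyG : MvPolynomial.eval y G0 ≠ 0 := left_ne_zero_of_mul hy2
  have hy0 : ∀ ρ, y ρ ≠ 0 := by
    intro ρ
    have := Finset.prod_ne_zero_iff.1 (right_ne_zero_of_mul hy2) ρ (Finset.mem_univ ρ)
    simpa using this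
  have hybad : y ∉ bad F v I := fun hbad => hyG (hG0 y hbad)
  -- the polynomials
  set f : Fin r → k[X] := fun ρ => P ρ + C (y ρ) * Q ρ with hf
  have hfe : ∀ ρ t, (f ρ).eval t = (P ρ).eval t + (Q ρ).eval t * y ρ := by
    intro ρ t
    simp [hf, mul_comm]
  have hfd : ∀ ρ, (f ρ).natDegree ≤ d ρ := by
    intro ρ
    refine (natDegree_add_le _ _).trans (max_le (hPd ρ).le ?_)
    refine (natDegree_C_mul_le _ _).trans ?_
    rw [hQ]
    exact (pert_natDegree a (d ρ) (hd2 ρ)).le
  have hfc : ∀ ρ, (f ρ).coeff (d ρ) = y ρ := by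
    intro ρ
    have h1 : (Q ρ).coeff (d ρ) = 1 := by
      have h2 := (pert_monic a (d ρ)).coeff_natDegree
      rwa [pert_natDegree a (d ρ) (hd2 ρ)] at h2
    simp only [hf, coeff_add, coeff_C_mul, h1, mul_one]
    rw [coeff_eq_zero_of_natDegree_lt (hPd ρ), zero_add]
  have hfa : ∀ i ρ, (f ρ).eval (a i) = v i ρ ∧ (f ρ).derivative.eval (a i) = h i ρ := by
    intro i ρ
    obtain ⟨h1, h2⟩ := pert_at a (d ρ) i
    obtain ⟨h3, h4⟩ := hP ρ i
    constructor
    · rw [hfe, h3]
      simp only [hQ, h1, zero_mul, add_zero]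
    · simp only [hf, hQ, derivative_add, derivative_C_mul, eval_add, eval_mul, eval_C, h2, h4,
        mul_zero, add_zero]
  have hgood : ∀ t ∉ A, (fun ρ => (f ρ).eval t) ∉ bad F v I := by
    intro t ht hbad
    obtain ⟨G, hG, hG1⟩ := hy1 t ht
    apply hG1
    have h1 : (fun ρ => (P ρ).eval t + (Q ρ).eval t * y ρ) = fun ρ => (f ρ).eval t := by
      funext ρ
      rw [hfe]
    rw [h1]
    exact hG _ hbad
  -- values of the forms
  have hvfin : ∀ p : Fin 2 → k, p 1 ≠ 0 → (fun ρ => MvPolynomial.eval p ((f ρ).homogenize (d ρ))) =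
      fun ρ => p 1 ^ d ρ * (f ρ).eval (p 0 / p 1) := by
    intro p hp
    funext ρ
    exact eval_fin (f ρ) (d ρ) (hfd ρ) p hp
  have hvinf : ∀ p : Fin 2 → k, p 1 = 0 → (fun ρ => MvPolynomial.eval p ((f ρ).homogenize (d ρ))) =
      fun ρ => p 0 ^ d ρ * y ρ := by
    intro p hp
    funext ρ
    rw [eval_inf (f ρ) (d ρ) (hfd ρ) p hp, hfc]
  have hpt : ∀ t, IsPoint F (fun ρ => (f ρ).eval t) := by
    intro t
    by_cases ht : t ∈ A
    · obtain ⟨i, _, rfl⟩ := Finset.mem_image.1 ht
      have h1 : (fun ρ => (f ρ).eval (a i)) = v i := by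
        funext ρ
        exact (hfa i ρ).1
      rw [h1]
      exact hv i
    · have h1 := hgood t ht
      by_cases h2 : ∃ ρ, (f ρ).eval t = 0
      · obtain ⟨ρ, hρ⟩ := h2
        refine ⟨{ρ}, F.single ρ, fun ρ' => ?_⟩
        rw [Finset.mem_singleton]
        constructor
        · rintro rfl
          exact hρ
        · intro hρ'
          by_contra hne
          exact h1 (Or.inl ⟨ρ', ρ, hne, hρ', hρ⟩)
      · push Not at h2
        refine ⟨∅, F.zero, fun ρ => ?_⟩
        simp only [Finset.notMem_empty, false_iff]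
        exact h2 ρ
  have hscale : ∀ (x : Fin r → k) (c : k), c ≠ 0 → IsPoint F x → IsPoint F (fun ρ => c ^ d ρ * x ρ) := by
    rintro x c hc ⟨s, hs, hx⟩
    refine ⟨s, hs, fun ρ => ?_⟩
    rw [hx, mul_eq_zero]
    exact ⟨Or.inr, fun h => h.resolve_left (pow_ne_zero _ hc)⟩
  have hp0 : ∀ p : Fin 2 → k, p ≠ 0 → p 1 = 0 → p 0 ≠ 0 := by
    intro p hp h1 h0
    apply hp
    funext i
    fin_cases i
    · exact h0
    · exact h1
  let Γ : Curve F k :=
    { deg := fun ρ => (d ρ : ℤ)
      form := fun ρ => (f ρ).homogenize (d ρ)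
      isForm := fun ρ => by
        rw [IsForm, if_pos (Int.natCast_nonneg _), Int.toNat_natCast]
        exact isHomogeneous_homogenize _
      balanced := by
        funext i
        simpa using hdbal i
      isPoint := fun p hp => by
        by_cases h1 : p 1 = 0
        · rw [hvinf p h1]
          refine ⟨∅, F.zero, fun ρ => ?_⟩
          simp only [Finset.notMem_empty, false_iff]
          exact mul_ne_zero (pow_ne_zero _ (hp0 p hp h1)) (hy0 ρ)
        · rw [hvfin p h1]
          exact hscale _ _ h1 (hpt _) }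
  have hval : ∀ p, Γ.val p = fun ρ => MvPolynomial.eval p ((f ρ).homogenize (d ρ)) := fun p => rfl
  have hvala : ∀ i, Γ.val ![a i, 1] = v i := by
    intro i
    rw [hval, hvfin ![a i, 1] (by simp)]
    funext ρ
    simp [(hfa i ρ).1]
  have hder : ∀ i (w : Fin 2 → k), Γ.der ![a i, 1] w =
      fun ρ => (w 0 - a i * w 1) * h i ρ + w 1 * d ρ * v i ρ := by
    intro i w
    funext ρ
    change ∑ l, w l * MvPolynomial.eval ![a i, 1] (MvPolynomial.pderiv l ((f ρ).homogenize (d ρ))) = _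
    rw [Fin.sum_univ_two, der_zero _ _ (hfd ρ), der_one _ _ (hfd ρ), (hfa i ρ).1, (hfa i ρ).2]
    ring
  refine ⟨Γ, ?_, ?_, fun i => ⟨⟨![a i, 1], ?_, ?_, ?_, ?_⟩, ⟨![a i, 1], ?_, ?_, ![1, 0], ?_⟩⟩⟩
  · -- very free
    intro p q hpq b c
    choose H hH hHp hHq using fun ρ => two_values hpq (d ρ) (hdpos ρ) (b ρ) (c ρ)
    refine ⟨H, fun ρ => ?_, ⟨fun _ => 0, fun i => by simp, fun ρ => ?_⟩,
      ⟨fun _ => 0, fun i => by simp, fun ρ => ?_⟩⟩
    · change IsForm ((d ρ : ℤ)) (H ρ)
      rw [IsForm, if_pos (Int.natCast_nonneg _), Int.toNat_natCast]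
      exact hH ρ
    · simp [hHp ρ]
    · simp [hHq ρ]
  · -- the closed set is avoided
    intro p hp
    by_contra hcon
    push Not at hcon
    rw [hval] at hcon
    by_cases h1 : p 1 = 0
    · rw [hvinf p h1] at hcon
      exact hybad (Or.inr (Or.inr (hI.stable _ _
        (same_symm (same_scale d hdbal y _ (hp0 p hp h1))) hcon)))
    · rw [hvfin p h1] at hcon
      have h2 := hI.stable _ _ (same_symm (same_scale d hdbal _ _ h1)) hcon
      by_cases ht : p 0 / p 1 ∈ A
      · obtain ⟨j, _, hj⟩ := Finset.mem_image.1 ht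
        have h3 : (fun ρ => (f ρ).eval (p 0 / p 1)) = v j := by
          funext ρ
          rw [← hj]
          exact (hfa j ρ).1
        rw [h3] at h2
        obtain ⟨G, hG, hG1⟩ := hvI j
        exact hG1 (h2 G hG)
      · exact hgood _ ht (Or.inr (Or.inr h2))
  · intro h0
    have := congrFun h0 1
    simp at this
  · rw [hvala]
    exact same_refl _
  · -- uniqueness
    intro q hq hsame
    rw [hval] at hsame
    by_cases h1 : q 1 = 0
    · exfalso
      rw [hvinf q h1] at hsame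
      exact hybad (Or.inr (Or.inl ⟨i, same_trans hsame (same_symm (same_scale d hdbal y _ (hp0 q hq h1)))⟩))
    · rw [hvfin q h1] at hsame
      have h2 : Same F (v i) (fun ρ => (f ρ).eval (q 0 / q 1)) :=
        same_trans hsame (same_symm (same_scale d hdbal _ _ h1))
      by_cases ht : q 0 / q 1 ∈ A
      · obtain ⟨j, _, hj⟩ := Finset.mem_image.1 ht
        have h3 : (fun ρ => (f ρ).eval (q 0 / q 1)) = v j := by
          funext ρ
          rw [← hj]
          exact (hfa j ρ).1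
        rw [h3] at h2
        have h4 := hdist i j h2
        refine ⟨q 1, ?_⟩
        funext l
        fin_cases l
        · simp only [Fin.zero_eta, Fin.isValue, Pi.smul_apply, Matrix.cons_val_zero, smul_eq_mul]
          rw [h4, hj]
          field_simp
        · simp
      · exact absurd (Or.inr (Or.inl ⟨i, h2⟩)) (hgood _ ht)
  · -- immersion
    intro w hw
    rw [hvala, hder] at hw
    obtain ⟨g, hg0, hg⟩ := hw
    by_cases h1 : w 0 - a i * w 1 = 0
    · refine ⟨w 1, ?_⟩
      funext l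
      fin_cases l
      · simp only [Fin.zero_eta, Fin.isValue, Pi.smul_apply, Matrix.cons_val_zero, smul_eq_mul]
        linear_combination h1
      · simp
    · exfalso
      apply hh i
      refine ⟨fun ρ => (g ρ - w 1 * d ρ) / (w 0 - a i * w 1), fun j => ?_, fun ρ => ?_⟩
      · have h2 : ∀ ρ, (g ρ - w 1 * d ρ) / (w 0 - a i * w 1) * (F.ray ρ j : k) =
            (w 0 - a i * w 1)⁻¹ * (g ρ * (F.ray ρ j : k)) -
            (w 0 - a i * w 1)⁻¹ * w 1 * ((d ρ : k) * (F.ray ρ j : k)) := by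
          intro ρ
          rw [div_eq_mul_inv]
          ring
        simp only [h2]
        rw [Finset.sum_sub_distrib, ← Finset.mul_sum, ← Finset.mul_sum, hg0, mul_zero, zero_sub,
          neg_eq_zero]
        have h3 := congrArg (fun z : ℤ => (z : k)) (hdbal j)
        have h4 : ∑ ρ, (d ρ : k) * (F.ray ρ j : k) = 0 := by simpa using h3
        rw [h4, mul_zero]
      · have h2 := hg ρ
        simp only at h2
        rw [div_mul_eq_mul_div, eq_div_iff h1]
        linear_combination h2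
  · intro h0
    have := congrFun h0 1
    simp at this
  · exact hvala i
  · rw [hder]
    funext ρ
    simp

end Pool.Agent.ToricCurves
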