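import Pool.Agent.Lib_MP_1858fb.Defs

/-! Interpolation, homogenisation, and the ideal of the bad set. -/

set_option autoImplicit false

namespace Pool.Agent.ToricCurves

open Polynomial

variable {k : Type} [Field k]

/-- Hermite interpolation -/
theorem hermite {m : ℕ} (a : Fin m → k) (ha : Function.Injective a) (v h : Fin m → k) :
    ∃ P : k[X], ∀ i, P.eval (a i) = v i ∧ P.derivative.eval (a i) = h i := by
  classical
  set L : Fin m → k[X] := fun i => Lagrange.basis Finset.univ a i with hL
  have h1 : ∀ i, (L i).eval (a i) = 1 := fun i =>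
    Lagrange.eval_basis_self ha.injOn (Finset.mem_univ i)
  have h2 : ∀ i j, i ≠ j → (L i).eval (a j) = 0 := fun i j hij =>
    Lagrange.eval_basis_of_ne hij (Finset.mem_univ j)
  refine ⟨∑ i, (C (v i) + C (h i - v i * (2 * (L i).derivative.eval (a i))) * (X - C (a i))) *
    L i ^ 2, fun j => ⟨?_, ?_⟩⟩
  · rw [eval_finsetSum, Finset.sum_eq_single j]
    · simp [h1]
    · intro i _ hij
      simp [h2 i j hij]
    · simp
  · rw [derivative_sum, eval_finsetSum, Finset.sum_eq_single j]
    · simp [h1, derivative_pow]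
    · intro i _ hij
      simp [h2 i j hij, derivative_pow]
    · simp

theorem eval_homog (f : k[X]) (d : ℕ) (hd : f.natDegree ≤ d) (p : Fin 2 → k) :
    MvPolynomial.eval p (f.homogenize d) =
      ∑ i ∈ Finset.range (d + 1), f.coeff i * (p 0 ^ i * p 1 ^ (d - i)) := by
  conv_lhs => rw [f.as_sum_range_C_mul_X_pow' (Nat.lt_succ_of_le hd)]
  rw [homogenize_finsetSum, map_sum]
  refine Finset.sum_congr rfl fun i hi => ?_
  have hi' : i ≤ d := by
    have := Finset.mem_range.1 hi
    omega
  rw [homogenize_C_mul, homogenize_X_pow hi']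
  simp

theorem eval_fin (f : k[X]) (d : ℕ) (hd : f.natDegree ≤ d) (p : Fin 2 → k) (hp : p 1 ≠ 0) :
    MvPolynomial.eval p (f.homogenize d) = p 1 ^ d * f.eval (p 0 / p 1) := by
  rw [eval_homog f d hd, eval_eq_sum_range' (Nat.lt_succ_of_le hd), Finset.mul_sum]
  refine Finset.sum_congr rfl fun i hi => ?_
  have hi' : i ≤ d := by
    have := Finset.mem_range.1 hi
    omega
  have h1 : p 1 ^ d = p 1 ^ (d - i) * p 1 ^ i := by
    rw [← pow_add]
    congr 1
    omega
  rw [h1, div_pow]
  field_simp

theorem eval_inf (f : k[X]) (d : ℕ) (hd : f.natDegree ≤ d) (p : Fin 2 → k) (hp : p 1 = 0) :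
    MvPolynomial.eval p (f.homogenize d) = p 0 ^ d * f.coeff d := by
  rw [eval_homog f d hd, Finset.sum_eq_single d]
  · rw [Nat.sub_self, pow_zero, mul_one, mul_comm]
  · intro i hi hne
    have hi' : d - i ≠ 0 := by
      have := Finset.mem_range.1 hi
      omega
    rw [hp, zero_pow hi', mul_zero, mul_zero]
  · simp

theorem der_zero (f : k[X]) (d : ℕ) (hd : f.natDegree ≤ d) (a : k) :
    MvPolynomial.eval ![a, 1] (MvPolynomial.pderiv 0 (f.homogenize d)) = f.derivative.eval a := by
  apply Polynomial.induction_with_natDegree_le (fun f : k[X] =>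
    MvPolynomial.eval ![a, 1] (MvPolynomial.pderiv 0 (f.homogenize d)) = f.derivative.eval a) (N := d)
  · simp
  · intro i c _ hi
    rw [homogenize_C_mul, homogenize_X_pow hi]
    simp [derivative_X_pow]
  · intro f g _ _ hf hg
    simp only [homogenize_add, map_add, hf, hg, eval_add]
  · exact hd

theorem der_one (f : k[X]) (d : ℕ) (hd : f.natDegree ≤ d) (a : k) :
    MvPolynomial.eval ![a, 1] (MvPolynomial.pderiv 1 (f.homogenize d)) =
      d * f.eval a - a * f.derivative.eval a := by
  apply Polynomial.induction_with_natDegree_le (fun f : k[X] =>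
    MvPolynomial.eval ![a, 1] (MvPolynomial.pderiv 1 (f.homogenize d)) =
      d * f.eval a - a * f.derivative.eval a) (N := d)
  · simp
  · intro i c _ hi
    rw [homogenize_C_mul, homogenize_X_pow hi]
    obtain ⟨j, rfl⟩ := Nat.exists_eq_add_of_le hi
    rcases i with _ | i
    · simp
      ring
    · simp
      ring
  · intro f g _ _ hf hg
    simp only [homogenize_add, map_add, hf, hg, eval_add]
    ring
  · exact hd

/-- forms of positive degree take prescribed values at two points -/
theorem two_values {p q : Fin 2 → k} (hpq : LinearIndependent k ![p, q]) (d : ℕ) (hd : 0 < d)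
    (a b : k) : ∃ h : MvPolynomial (Fin 2) k, h.IsHomogeneous d ∧ MvPolynomial.eval p h = a ∧
      MvPolynomial.eval q h = b := by
  have hdet : p 0 * q 1 - p 1 * q 0 ≠ 0 := by
    intro h0
    rw [LinearIndependent.pair_iff] at hpq
    have h1 := hpq (q 1) (-(p 1)) (by
      funext i
      fin_cases i
      · simp
        linear_combination h0
      · simp
        ring)
    have h2 := hpq (q 0) (-(p 0)) (by
      funext i
      fin_cases i
      · simp
        ring
      · simp
        linear_combination -h0)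
    have h3 := hpq 1 0 (by
      funext i
      fin_cases i
      · simpa using h2.2
      · simpa using h1.2)
    exact one_ne_zero h3.1
  set Lq : MvPolynomial (Fin 2) k := MvPolynomial.C (q 1) * MvPolynomial.X 0 -
    MvPolynomial.C (q 0) * MvPolynomial.X 1 with hLq
  set Lp : MvPolynomial (Fin 2) k := MvPolynomial.C (p 1) * MvPolynomial.X 0 -
    MvPolynomial.C (p 0) * MvPolynomial.X 1 with hLp
  have hL : ∀ s t : k, (MvPolynomial.C s * MvPolynomial.X 0 -
      MvPolynomial.C t * MvPolynomial.X 1 : MvPolynomial (Fin 2) k).IsHomogeneous 1 := by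
    intro s t
    exact ((MvPolynomial.isHomogeneous_X k 0).C_mul s).sub ((MvPolynomial.isHomogeneous_X k 1).C_mul t)
  have h1 : MvPolynomial.eval p Lq = p 0 * q 1 - p 1 * q 0 := by
    rw [hLq, map_sub, map_mul, map_mul, MvPolynomial.eval_C, MvPolynomial.eval_C,
      MvPolynomial.eval_X, MvPolynomial.eval_X]
    ring
  have h2 : MvPolynomial.eval q Lq = 0 := by
    rw [hLq, map_sub, map_mul, map_mul, MvPolynomial.eval_C, MvPolynomial.eval_C,
      MvPolynomial.eval_X, MvPolynomial.eval_X]
    ring
  have h3 : MvPolynomial.eval q Lp = -(p 0 * q 1 - p 1 * q 0) := by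
    rw [hLp, map_sub, map_mul, map_mul, MvPolynomial.eval_C, MvPolynomial.eval_C,
      MvPolynomial.eval_X, MvPolynomial.eval_X]
    ring
  have h4 : MvPolynomial.eval p Lp = 0 := by
    rw [hLp, map_sub, map_mul, map_mul, MvPolynomial.eval_C, MvPolynomial.eval_C,
      MvPolynomial.eval_X, MvPolynomial.eval_X]
    ring
  refine ⟨MvPolynomial.C (a / (p 0 * q 1 - p 1 * q 0) ^ d) * Lq ^ d +
    MvPolynomial.C (b / (-(p 0 * q 1 - p 1 * q 0)) ^ d) * Lp ^ d, ?_, ?_, ?_⟩
  · have h5 : (Lq ^ d).IsHomogeneous d := by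
      have := (hL (q 1) (q 0)).pow d
      rwa [one_mul] at this
    have h6 : (Lp ^ d).IsHomogeneous d := by
      have := (hL (p 1) (p 0)).pow d
      rwa [one_mul] at this
    exact (h5.C_mul _).add (h6.C_mul _)
  · rw [map_add, map_mul, map_mul, map_pow, map_pow, h1, h4, zero_pow hd.ne', mul_zero, add_zero,
      MvPolynomial.eval_C, div_mul_cancel₀ _ (pow_ne_zero _ hdet)]
  · rw [map_add, map_mul, map_mul, map_pow, map_pow, h2, h3, zero_pow hd.ne', mul_zero, zero_add,
      MvPolynomial.eval_C, div_mul_cancel₀ _ (pow_ne_zero _ (neg_ne_zero.2 hdet))]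

end Pool.Agent.ToricCurves
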