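import Pool.Agent.Lib_MP_1858fb.Elim

/-! General position: a polynomial curve with prescribed jets avoids a set of codimension two. -/

set_option autoImplicit false

open Polynomial

namespace Pool.Agent.ToricCurves

/-- nonzero, and no irreducible polynomial divides all members -/
def Small {r : ℕ} {k : Type} [Field k] (I : Ideal (MvPolynomial (Fin r) k)) : Prop :=
  I ≠ ⊥ ∧ ∀ π : MvPolynomial (Fin r) k, Irreducible π → ∃ F ∈ I, ¬ π ∣ F

variable {k : Type} [Field k]

/-- the ideal of the coefficients with respect to the first variable -/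
noncomputable def coeffIdeal {r : ℕ} (I : Ideal (MvPolynomial (Fin (r + 1)) k)) :
    Ideal (MvPolynomial (Fin r) k) :=
  Ideal.span {c | ∃ F ∈ I, ∃ i : ℕ, c = (MvPolynomial.finSuccEquiv k r F).coeff i}

theorem coeffIdeal_small {r : ℕ} (I : Ideal (MvPolynomial (Fin (r + 1)) k)) (h : Small I) :
    Small (coeffIdeal I) := by
  constructor
  · obtain ⟨F, hF, hF0⟩ := Submodule.exists_mem_ne_zero_of_ne_bot h.1
    have h1 : MvPolynomial.finSuccEquiv k r F ≠ 0 := by
      rwa [Ne, EmbeddingLike.map_eq_zero_iff]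
    intro hbot
    have h2 : (MvPolynomial.finSuccEquiv k r F).leadingCoeff ∈ coeffIdeal I :=
      Ideal.subset_span ⟨F, hF, _, rfl⟩
    rw [hbot, Ideal.mem_bot, leadingCoeff_eq_zero] at h2
    exact h1 h2
  · intro π hπ
    have hprime : Prime (C π : (MvPolynomial (Fin r) k)[X]) := prime_C_iff.2 hπ.prime
    have hirr : Irreducible ((MvPolynomial.finSuccEquiv k r).symm (C π)) := by
      rw [MulEquiv.irreducible_iff (MvPolynomial.finSuccEquiv k r).symm]
      exact hprime.irreducible
    obtain ⟨F, hF, hd⟩ := h.2 _ hirr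
    have h3 : ¬ (C π : (MvPolynomial (Fin r) k)[X]) ∣ MvPolynomial.finSuccEquiv k r F := by
      intro h4
      apply hd
      have := map_dvd (MvPolynomial.finSuccEquiv k r).symm h4
      simpa using this
    rw [C_dvd_iff_dvd_coeff] at h3
    push Not at h3
    obtain ⟨i, hi⟩ := h3
    exact ⟨_, Ideal.subset_span ⟨F, hF, i, rfl⟩, hi⟩

theorem exists_free {r : ℕ} (I : Ideal (MvPolynomial (Fin (r + 1)) k)) (h : Small I) :
    ∃ g : MvPolynomial (Fin r) k, g ≠ 0 ∧ (MvPolynomial.finSuccEquiv k r).symm (C g) ∈ I := by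
  have h1 : I.comap (MvPolynomial.finSuccEquiv k r).symm ≠ ⊥ := by
    obtain ⟨F, hF, hF0⟩ := Submodule.exists_mem_ne_zero_of_ne_bot h.1
    intro hbot
    have h2 : MvPolynomial.finSuccEquiv k r F ∈ I.comap (MvPolynomial.finSuccEquiv k r).symm := by
      rw [Ideal.mem_comap]
      simpa using hF
    rw [hbot, Ideal.mem_bot, EmbeddingLike.map_eq_zero_iff] at h2
    exact hF0 h2
  have h2 : ∀ π : (MvPolynomial (Fin r) k)[X], Irreducible π →
      ∃ F ∈ I.comap (MvPolynomial.finSuccEquiv k r).symm, ¬ π ∣ F := by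
    intro π hπ
    have hirr : Irreducible ((MvPolynomial.finSuccEquiv k r).symm π) := by
      rwa [MulEquiv.irreducible_iff (MvPolynomial.finSuccEquiv k r).symm]
    obtain ⟨F, hF, hd⟩ := h.2 _ hirr
    refine ⟨MvPolynomial.finSuccEquiv k r F, ?_, ?_⟩
    · rw [Ideal.mem_comap]
      simpa using hF
    · intro h4
      apply hd
      have := map_dvd (MvPolynomial.finSuccEquiv k r).symm h4
      simpa using this
  obtain ⟨g, hg, hm⟩ := exists_C_mem _ h1 h2
  exact ⟨g, hg, hm⟩

theorem line_ne {r : ℕ} (g : MvPolynomial (Fin (r + 1)) k) (s : Fin r → k)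
    (h : ∃ i, MvPolynomial.eval s ((MvPolynomial.finSuccEquiv k r g).coeff i) ≠ 0) :
    ((MvPolynomial.finSuccEquiv k r g).map (MvPolynomial.eval s)) ≠ 0 := by
  obtain ⟨i, hi⟩ := h
  intro h0
  apply hi
  rw [← Polynomial.coeff_map, h0, coeff_zero]

theorem cons_eq {r : ℕ} (P Q : Fin (r + 1) → k[X]) (y0 : k) (y : Fin r → k) (t : k) :
    (fun j : Fin (r + 1) => (P j).eval t + (Q j).eval t * (Fin.cons y0 y : Fin (r + 1) → k) j) =
      Fin.cons ((P 0).eval t + (Q 0).eval t * y0)
        (fun j : Fin r => (P j.succ).eval t + (Q j.succ).eval t * y j) := by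
  funext j
  refine Fin.cases ?_ ?_ j
  · simp
  · intro i
    simp

theorem eval_curve {r : ℕ} (f : Fin r → k[X]) (t : k) (g : MvPolynomial (Fin r) k) :
    (MvPolynomial.aeval f g).eval t = MvPolynomial.eval (fun j => (f j).eval t) g := by
  have : ((evalRingHom t).comp (MvPolynomial.aeval f).toRingHom) =
      MvPolynomial.eval (fun j => (f j).eval t) := by
    apply MvPolynomial.ringHom_ext
    · intro c
      simp
    · intro j
      simp
  exact RingHom.congr_fun this g

/-- **General position.** -/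
theorem gp [Infinite k] (A : Finset k) : ∀ (r : ℕ) (P Q : Fin r → k[X]),
    (∀ j, ∀ t ∉ A, (Q j).eval t ≠ 0) → ∀ I : Ideal (MvPolynomial (Fin r) k), Small I →
    ∀ g h : MvPolynomial (Fin r) k, g ≠ 0 → h ≠ 0 →
    ∃ y : Fin r → k,
      (∀ t ∉ A, ∃ F ∈ I, MvPolynomial.eval (fun j => (P j).eval t + (Q j).eval t * y j) F ≠ 0) ∧
      (∃ t ∉ A, MvPolynomial.eval (fun j => (P j).eval t + (Q j).eval t * y j) g ≠ 0) ∧
      MvPolynomial.eval y h ≠ 0 := by
  classical
  intro r
  induction r with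
  | zero =>
    intro P Q hQ I hI g h hg hh
    have hev : ∀ (F : MvPolynomial (Fin 0) k) (s : Fin 0 → k), F ≠ 0 →
        MvPolynomial.eval s F ≠ 0 := by
      intro F s hF h0
      apply hF
      rw [MvPolynomial.eq_C_of_isEmpty F] at h0 ⊢
      rw [MvPolynomial.eval_C] at h0
      rw [h0, map_zero]
    obtain ⟨F, hF, hF0⟩ := Submodule.exists_mem_ne_zero_of_ne_bot hI.1
    obtain ⟨t, ht⟩ := Infinite.exists_notMem_finset A
    exact ⟨Fin.elim0, fun t _ => ⟨F, hF, hev _ _ hF0⟩, ⟨t, ht, hev _ _ hg⟩, hev _ _ hh⟩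
  | succ r ih =>
    intro P Q hQ I hI g h hg hh
    obtain ⟨g0, hg0, hg0I⟩ := exists_free I hI
    set eg := MvPolynomial.finSuccEquiv k r g with heg
    set eh := MvPolynomial.finSuccEquiv k r h with heh
    have hegn : eg ≠ 0 := by rwa [heg, Ne, EmbeddingLike.map_eq_zero_iff]
    have hehn : eh ≠ 0 := by rwa [heh, Ne, EmbeddingLike.map_eq_zero_iff]
    obtain ⟨y, hy1, ⟨t0, ht0, hy2⟩, hy3⟩ := ih (fun j => P j.succ) (fun j => Q j.succ)
      (fun j => hQ j.succ) (coeffIdeal I) (coeffIdeal_small I hI) (g0 * eg.leadingCoeff)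
      eh.leadingCoeff (mul_ne_zero hg0 (leadingCoeff_ne_zero.2 hegn)) (leadingCoeff_ne_zero.2 hehn)
    set f : k → Fin r → k := fun t j => (P j.succ).eval t + (Q j.succ).eval t * y j with hf
    rw [map_mul] at hy2
    -- the polynomial g0 along the curve
    set G0 : k[X] := MvPolynomial.aeval (fun j => P j.succ + Q j.succ * C (y j)) g0 with hG0
    have hG0e : ∀ t, G0.eval t = MvPolynomial.eval (f t) g0 := by
      intro t
      rw [hG0, eval_curve]
      congr 2
      funext j
      simp [hf]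
    have hG0n : G0 ≠ 0 := by
      intro h0
      have := hG0e t0
      rw [h0, eval_zero] at this
      exact left_ne_zero_of_mul hy2 this.symm
    have key : ∀ t, ∃ φ : k[X], φ ≠ 0 ∧ (t ∉ A → ∀ x, φ.eval x ≠ 0 →
        ∃ F ∈ I, MvPolynomial.eval (Fin.cons x (f t) : Fin (r + 1) → k) F ≠ 0) := by
      intro t
      by_cases ht : t ∈ A
      · exact ⟨1, one_ne_zero, fun h => absurd ht h⟩
      · obtain ⟨c, hc, hc0⟩ := hy1 t ht
        have : ∃ F ∈ I, ∃ i, MvPolynomial.eval (f t) ((MvPolynomial.finSuccEquiv k r F).coeff i) ≠ 0 := by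
          by_contra hcon
          push Not at hcon
          apply hc0
          have hle : coeffIdeal I ≤ RingHom.ker (MvPolynomial.eval (f t)) := by
            rw [coeffIdeal, Ideal.span_le]
            rintro c ⟨F, hF, i, rfl⟩
            exact hcon F hF i
          exact hle hc
        obtain ⟨F, hF, hi⟩ := this
        refine ⟨_, line_ne F (f t) hi, fun _ x hx => ⟨F, hF, ?_⟩⟩
        rwa [MvPolynomial.eval_eq_eval_mv_eval']
    choose φ hφ0 hφ using key
    have hlg : (eg.map (MvPolynomial.eval (f t0))) ≠ 0 :=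
      line_ne g (f t0) ⟨eg.natDegree, right_ne_zero_of_mul hy2⟩
    have hlh : (eh.map (MvPolynomial.eval y)) ≠ 0 := line_ne h y ⟨eh.natDegree, hy3⟩
    obtain ⟨y0, hy0⟩ := Infinite.exists_notMem_finset
      ((G0.roots.toFinset.biUnion fun t => (φ t).roots.toFinset.image
        fun x => (x - (P 0).eval t) / (Q 0).eval t) ∪
       ((eg.map (MvPolynomial.eval (f t0))).roots.toFinset.image
        fun x => (x - (P 0).eval t0) / (Q 0).eval t0) ∪
       (eh.map (MvPolynomial.eval y)).roots.toFinset)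
    simp only [Finset.mem_union, Finset.mem_biUnion, Finset.mem_image, Multiset.mem_toFinset,
      not_or, not_exists, not_and] at hy0
    obtain ⟨⟨h1, h2⟩, h3⟩ := hy0
    have hinv : ∀ t ∉ A, ∀ x : k, x = (P 0).eval t + (Q 0).eval t * y0 →
        (x - (P 0).eval t) / (Q 0).eval t = y0 := by
      intro t ht x hx
      rw [hx, add_sub_cancel_left, mul_div_cancel_left₀ _ (hQ 0 t ht)]
    refine ⟨Fin.cons y0 y, ?_, ⟨t0, ht0, ?_⟩, ?_⟩
    · intro t ht
      rw [cons_eq]
      by_cases hz : MvPolynomial.eval (f t) g0 = 0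
      · apply hφ t ht
        intro hroot
        refine h1 t ((mem_roots hG0n).2 ?_) _ ((mem_roots (hφ0 t)).2 hroot) (hinv t ht _ rfl)
        rw [IsRoot, hG0e, hz]
      · refine ⟨_, hg0I, ?_⟩
        rw [MvPolynomial.eval_eq_eval_mv_eval', AlgEquiv.apply_symm_apply, map_C, eval_C]
        exact hz
    · rw [cons_eq, MvPolynomial.eval_eq_eval_mv_eval']
      intro hroot
      exact h2 _ ((mem_roots hlg).2 hroot) (hinv t0 ht0 _ rfl)
    · rw [MvPolynomial.eval_eq_eval_mv_eval']
      intro hroot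
      exact h3 ((mem_roots hlh).2 hroot)

end Pool.Agent.ToricCurves
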