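import Pool.Agent.Lib_MP_1858fb.LinDefs
import Pool.Agent.Lib_MP_1858fb.Final

/-! Very free curves in quotients of representations. -/

set_option autoImplicit false

namespace Pool.Agent.LinearQuotients

open Polynomial Matrix
open Pool.Agent.ToricCurves (hermite pert pert_monic pert_natDegree pert_eval pert_at gp eval_fin eval_inf
  der_zero der_one two_values small_of_key)

variable {r : ℕ} {k : Type} [Field k] {G : Subgroup (GL (Fin r) k)}

theorem same_refl (x : Fin r → k) : Same G x x := ⟨1, G.one_mem, by simp⟩

theorem same_symm {x y : Fin r → k} (h : Same G x y) : Same G y x := by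
  obtain ⟨g, hg, rfl⟩ := h
  refine ⟨g⁻¹, G.inv_mem hg, ?_⟩
  rw [Matrix.mulVec_mulVec, ← Units.val_mul, inv_mul_cancel, Units.val_one, Matrix.one_mulVec]

theorem same_trans {x y z : Fin r → k} (h : Same G x y) (h' : Same G y z) : Same G x z := by
  obtain ⟨g, hg, rfl⟩ := h
  obtain ⟨g', hg', rfl⟩ := h'
  exact ⟨g' * g, G.mul_mem hg' hg, by rw [Matrix.mulVec_mulVec, ← Units.val_mul]⟩

/-- the chain rule -/
theorem derivative_aeval {σ : Type} [Fintype σ] [DecidableEq σ] (g : σ → k[X])
    (E : MvPolynomial σ k) : derivative (MvPolynomial.aeval g E) =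
      ∑ s, MvPolynomial.aeval g (MvPolynomial.pderiv s E) * derivative (g s) := by
  induction E using MvPolynomial.induction_on with
  | C a => simp [MvPolynomial.algHom_C]
  | add p q hp hq =>
    simp only [map_add, hp, hq, add_mul, Finset.sum_add_distrib]
  | mul_X p s hp =>
    simp only [map_mul, MvPolynomial.aeval_X, derivative_mul, hp, Derivation.leibniz, map_add,
      smul_eq_mul, add_mul, Finset.sum_add_distrib]
    rw [add_comm]
    congr 1
    · rw [Finset.sum_eq_single s]
      · rw [MvPolynomial.pderiv_X_self]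
        simp
      · intro t _ ht
        rw [MvPolynomial.pderiv_X_of_ne ht.symm]
        simp
      · simp
    · rw [Finset.sum_mul]
      refine Finset.sum_congr rfl fun t _ => ?_
      ring

/-- the weights are in the Lie algebra -/
theorem lie_diag [Infinite k] (w : Fin r → ℕ)
    (hG : ∀ c : kˣ, ∃ g ∈ G, (g : Matrix (Fin r) (Fin r) k) = Matrix.diagonal fun j => (c : k) ^ w j) :
    InLie G (Matrix.diagonal fun j => (w j : k)) := by
  classical
  intro E hE
  set g : Fin r × Fin r → k[X] := fun s => if s.1 = s.2 then X ^ w s.1 else 0 with hg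
  have hval : ∀ c : k, ∀ s, (g s).eval c = Matrix.diagonal (fun j => c ^ w j) s.1 s.2 := by
    intro c s
    rw [hg]
    simp only [Matrix.diagonal_apply]
    split_ifs
    · simp
    · simp
  have hev : ∀ (c : k) (D : MvPolynomial (Fin r × Fin r) k), (MvPolynomial.aeval g D).eval c =
      MvPolynomial.eval (fun s => Matrix.diagonal (fun j => c ^ w j) s.1 s.2) D := by
    intro c D
    have : ((evalRingHom c).comp (MvPolynomial.aeval g).toRingHom) =
        MvPolynomial.eval (fun s => Matrix.diagonal (fun j => c ^ w j) s.1 s.2) := by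
      apply MvPolynomial.ringHom_ext
      · intro a
        simp
      · intro s
        simpa using hval c s
    exact RingHom.congr_fun this D
  have h0 : MvPolynomial.aeval g E = 0 := by
    by_contra hne
    obtain ⟨c, hc⟩ := Infinite.exists_notMem_finset ((MvPolynomial.aeval g E).roots.toFinset ∪ {0})
    simp only [Finset.mem_union, Multiset.mem_toFinset, Finset.mem_singleton, not_or] at hc
    apply hc.1
    rw [mem_roots hne, IsRoot, hev]
    obtain ⟨γ, hγ, hγ'⟩ := hG (Units.mk0 c hc.2)
    have := hE γ hγ
    rwa [hγ'] at this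
  have h1 := congrArg (fun p : k[X] => (derivative p).eval 1) h0
  simp only [derivative_zero, eval_zero] at h1
  rw [derivative_aeval, eval_finsetSum] at h1
  rw [← h1]
  refine Finset.sum_congr rfl fun s _ => ?_
  rw [eval_mul, hev]
  have h2 : (fun s : Fin r × Fin r => Matrix.diagonal (fun j => (1 : k) ^ w j) s.1 s.2) =
      fun s => (1 : Matrix (Fin r) (Fin r) k) s.1 s.2 := by
    funext s
    simp [Matrix.one_apply, Matrix.diagonal_apply]
  rw [h2, mul_comm]
  congr 1
  by_cases hs : s.1 = s.2
  · have h3 : g s = X ^ w s.1 := if_pos hs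
    rw [h3, hs, Matrix.diagonal_apply_eq, derivative_X_pow]
    simp
  · have h3 : g s = 0 := if_neg hs
    rw [h3, Matrix.diagonal_apply_ne _ hs]
    simp

theorem lie_comb {A B : Matrix (Fin r) (Fin r) k} (hA : InLie G A) (hB : InLie G B) (c d : k) :
    InLie G (c • A + d • B) := by
  intro E hE
  have h1 := hA E hE
  have h2 := hB E hE
  simp only [Matrix.add_apply, Matrix.smul_apply, smul_eq_mul, add_mul, Finset.sum_add_distrib,
    mul_assoc]
  rw [← Finset.mul_sum, ← Finset.mul_sum, h1, h2, mul_zero, mul_zero, add_zero]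

theorem lie_zero : InLie G 0 := by
  intro E _
  simp

end Pool.Agent.LinearQuotients
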