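import Mathlib

/-!
# Rational curves in quotients of representations

`G` is a group of invertible matrices of size `r`, `U` the complement in `W = k^r` of the zero set of an
ideal `I`. When `G` is closed, `U` is stable under `G`, and `U → V = U/G` is a `G`-torsor, then the
points of `V` are the orbits in `U`, the tangent space of `V` at the orbit of `x` is `W / Lie(G) x`, and
binary forms `f_j` of degrees `d w_j` with values in `U` define a morphism from the projective line to
`V`, provided that `G` contains the matrices `diag(c^(w_1), .., c^(w_r))`.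
-/

set_option autoImplicit false

namespace Pool.Agent.LinearQuotients

open MvPolynomial Matrix

variable {r : ℕ} {k : Type} [Field k]

/-- The polynomial `E` in the matrix entries vanishes on `G`. -/
def Vanishes (G : Subgroup (GL (Fin r) k)) (E : MvPolynomial (Fin r × Fin r) k) : Prop :=
  ∀ g ∈ G, eval (fun s => (g : Matrix (Fin r) (Fin r) k) s.1 s.2) E = 0

/-- `A` is in the Lie algebra of (the Zariski closure of) `G`: the differentials at the identity of the
polynomials which vanish on `G` vanish at `A`. -/
def InLie (G : Subgroup (GL (Fin r) k)) (A : Matrix (Fin r) (Fin r) k) : Prop :=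
  ∀ E, Vanishes G E → ∑ s : Fin r × Fin r,
    A s.1 s.2 * eval (fun s => (1 : Matrix (Fin r) (Fin r) k) s.1 s.2) (pderiv s E) = 0

/-- `x` and `y` are in the same orbit. -/
def Same (G : Subgroup (GL (Fin r) k)) (x y : Fin r → k) : Prop :=
  ∃ g ∈ G, y = (g : Matrix (Fin r) (Fin r) k) *ᵥ x

/-- `a` is zero in the tangent space `W / Lie(G) x` of `V` at `x`. -/
def ZeroAt (G : Subgroup (GL (Fin r) k)) (x a : Fin r → k) : Prop :=
  ∃ A : Matrix (Fin r) (Fin r) k, InLie G A ∧ a = A *ᵥ x

/-- `x` is in the open set `U`, the complement of the zero set of `I`. -/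
def InU (I : Ideal (MvPolynomial (Fin r) k)) (x : Fin r → k) : Prop := ∃ E ∈ I, eval x E ≠ 0

/-- A curve in `V`: forms of the degrees `deg * w j`, `deg ≥ 1`, with values in `U`. -/
structure Curve (w : Fin r → ℕ) (I : Ideal (MvPolynomial (Fin r) k)) where
  /-- the degree -/
  deg : ℕ
  pos : 0 < deg
  /-- the forms -/
  form : Fin r → MvPolynomial (Fin 2) k
  isForm : ∀ j, (form j).IsHomogeneous (deg * w j)
  inU : ∀ p : Fin 2 → k, p ≠ 0 → InU I fun j => eval p (form j)

variable {w : Fin r → ℕ} {I : Ideal (MvPolynomial (Fin r) k)}

/-- The value of the curve at the point `p` of the projective line. -/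
noncomputable def Curve.val (C : Curve w I) (p : Fin 2 → k) : Fin r → k := fun j => eval p (C.form j)

/-- The derivative of the curve at `p` in the direction `u`. -/
noncomputable def Curve.der (C : Curve w I) (p u : Fin 2 → k) : Fin r → k :=
  fun j => ∑ l, u l * eval p (pderiv l (C.form j))

/-- The curve is very free: the sections of the pullback of the tangent bundle of `V` that come from
the sections of its cover `⊕ O(deg w_j)` (tuples of forms of the degrees `deg * w j`) take any
prescribed values `a`, `b` at any two distinct points `p`, `q` of the projective line. -/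
def Curve.VeryFree (G : Subgroup (GL (Fin r) k)) (C : Curve w I) : Prop :=
  ∀ p q : Fin 2 → k, LinearIndependent k ![p, q] → ∀ a b : Fin r → k,
    ∃ h : Fin r → MvPolynomial (Fin 2) k, (∀ j, (h j).IsHomogeneous (C.deg * w j)) ∧
      ZeroAt G (C.val p) (fun j => eval p (h j) - a j) ∧
      ZeroAt G (C.val q) (fun j => eval q (h j) - b j)

/-- The curve passes through the point `x` of `V` exactly once, and with the nonzero derivative `h`
there; so `x` is a smooth point of the image curve. -/
def Curve.SmoothAt (G : Subgroup (GL (Fin r) k)) (C : Curve w I) (x h : Fin r → k) : Prop :=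
  ∃ p : Fin 2 → k, p ≠ 0 ∧ C.val p = x ∧
    (∀ q : Fin 2 → k, q ≠ 0 → Same G x (C.val q) → ∃ c : k, q = c • p) ∧
    (∀ u : Fin 2 → k, ZeroAt G x (C.der p u) → ∃ c : k, u = c • p) ∧
    ∃ u : Fin 2 → k, C.der p u = h

end Pool.Agent.LinearQuotients
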