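import Pool.Agent.Lib_MP_1858fb.Orbit
import Pool.Agent.Lib_MP_1858fb.Forms

/-! Very free curves through given points of a smooth toric variety. -/

set_option autoImplicit false

namespace Pool.Agent.ToricCurves

open Polynomial

variable {n r : ℕ} {F : Fan n r} {k : Type} [Field k]

theorem same_refl (x : Fin r → k) : Same F x x :=
  ⟨fun _ => 1, fun i => by simp, fun ρ => by simp⟩

theorem same_symm {x y : Fin r → k} (h : Same F x y) : Same F y x := by
  obtain ⟨g, hg, hy⟩ := h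
  refine ⟨fun ρ => (g ρ)⁻¹, fun i => ?_, fun ρ => ?_⟩
  · simp only [inv_zpow]
    rw [Finset.prod_inv_distrib, hg, inv_one]
  · rw [hy, ← mul_assoc, Units.inv_mul, one_mul]

theorem same_trans {x y z : Fin r → k} (h : Same F x y) (h' : Same F y z) : Same F x z := by
  obtain ⟨g, hg, hy⟩ := h
  obtain ⟨g', hg', hz⟩ := h'
  refine ⟨fun ρ => g' ρ * g ρ, fun i => ?_, fun ρ => ?_⟩
  · simp only [mul_zpow]
    rw [Finset.prod_mul_distrib, hg, hg', one_mul]
  · rw [hz, hy, Units.val_mul, mul_assoc]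

theorem same_scale (d : Fin r → ℕ) (hd : ∀ i, ∑ ρ, (d ρ : ℤ) * F.ray ρ i = 0) (x : Fin r → k)
    (c : k) (hc : c ≠ 0) : Same F x (fun ρ => c ^ d ρ * x ρ) := by
  refine ⟨fun ρ => Units.mk0 c hc ^ d ρ, fun i => ?_, fun ρ => ?_⟩
  · have h1 : ∀ ρ, (Units.mk0 c hc ^ d ρ) ^ F.ray ρ i = Units.mk0 c hc ^ ((d ρ : ℤ) * F.ray ρ i) := by
      intro ρ
      rw [zpow_mul, zpow_natCast]
    simp only [h1]
    rw [← zpow_sum, hd, zpow_zero]
  · push_cast
    rfl

theorem exists_tangent (hn : 0 < n) (hspan : RaysSpan F k) (v : Fin r → k) :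
    ∃ h : Fin r → k, ¬ ZeroAt F v h := by
  classical
  by_cases h0 : ∃ ρ, v ρ = 0
  · obtain ⟨ρ, hρ⟩ := h0
    refine ⟨fun _ => 1, ?_⟩
    rintro ⟨g, _, hg⟩
    have := hg ρ
    rw [hρ, mul_zero] at this
    exact one_ne_zero this
  · push Not at h0
    have hex : ∃ ρ, ∃ i, (F.ray ρ i : k) ≠ 0 := by
      by_contra hcon
      push Not at hcon
      have h1 := eq_zero_of_orth hspan (fun _ => (1 : k)) (fun ρ => by
        apply Finset.sum_eq_zero
        intro i _
        rw [hcon, mul_zero])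
      have := congrFun h1 ⟨0, hn⟩
      simp at this
    obtain ⟨ρ, i, hi⟩ := hex
    refine ⟨fun ρ' => if ρ' = ρ then v ρ' else 0, ?_⟩
    rintro ⟨g, hg0, hg⟩
    have h1 : ∀ ρ', g ρ' = if ρ' = ρ then 1 else 0 := by
      intro ρ'
      have := hg ρ'
      simp only at this
      split_ifs at this ⊢ with he
      · exact mul_right_cancel₀ (h0 ρ') (by rw [← this, one_mul])
      · exact (mul_eq_zero.1 this.symm).resolve_right (h0 ρ')
    have h2 := hg0 i
    rw [Finset.sum_eq_single ρ] at h2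
    · rw [h1, if_pos rfl, one_mul] at h2
      exact hi h2
    · intro ρ' _ hne
      rw [h1, if_neg hne, zero_mul]
    · simp

/-- the set to be avoided -/
def bad (F : Fan n r) {m : ℕ} (v : Fin m → Fin r → k) (I : Ideal (MvPolynomial (Fin r) k)) :
    Set (Fin r → k) :=
  {z | (∃ ρ1 ρ2, ρ1 ≠ ρ2 ∧ z ρ1 = 0 ∧ z ρ2 = 0) ∨ (∃ i, Same F (v i) z) ∨
    ∀ G ∈ I, MvPolynomial.eval z G = 0}

/-- its ideal -/
def badIdeal (F : Fan n r) {m : ℕ} (v : Fin m → Fin r → k) (I : Ideal (MvPolynomial (Fin r) k)) :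
    Ideal (MvPolynomial (Fin r) k) where
  carrier := {G | ∀ z ∈ bad F v I, MvPolynomial.eval z G = 0}
  add_mem' := fun {G H} hG hH z hz => by
    rw [map_add, hG z hz, hH z hz, add_zero]
  zero_mem' := fun z _ => by rw [map_zero]
  smul_mem' := fun c G hG z hz => by
    rw [smul_eq_mul, map_mul, hG z hz, mul_zero]

theorem small_of_key (ρ : Fin r) {I : Ideal (MvPolynomial (Fin r) k)}
    (key : ∀ π : MvPolynomial (Fin r) k, Irreducible π → ∃ G ∈ I, ¬ π ∣ G) : Small I := by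
  refine ⟨?_, key⟩
  obtain ⟨G, hG, hd⟩ := key (MvPolynomial.X ρ) (MvPolynomial.X_prime (i := ρ)).irreducible
  intro hbot
  rw [hbot, Ideal.mem_bot] at hG
  rw [hG] at hd
  exact hd (dvd_zero _)

theorem badIdeal_small (hn : 2 ≤ n) (hspan : RaysSpan F k) {m : ℕ} (v : Fin m → Fin r → k)
    (I : Ideal (MvPolynomial (Fin r) k)) (hI : IsCodimTwo F I) :
    Small (badIdeal F v I) := by
  classical
  have key : ∀ π : MvPolynomial (Fin r) k, Irreducible π → ∃ G ∈ badIdeal F v I, ¬ π ∣ G := by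
    intro π hπ
    have h1 : ∀ s : Fin r × Fin r, ∃ G : MvPolynomial (Fin r) k, ¬ π ∣ G ∧
        (s.1 ≠ s.2 → ∀ z : Fin r → k, z s.1 = 0 → z s.2 = 0 → MvPolynomial.eval z G = 0) := by
      intro s
      by_cases hs : s.1 = s.2
      · exact ⟨1, fun h => hπ.not_isUnit (isUnit_of_dvd_one h), fun h => absurd hs h⟩
      · by_cases hd : π ∣ MvPolynomial.X s.1
        · exact ⟨MvPolynomial.X s.2, fun hd' => hs (eq_of_dvd hπ hd hd'), fun _ z _ hz => by simpa using hz⟩
        · exact ⟨MvPolynomial.X s.1, hd, fun _ z hz _ => by simpa using hz⟩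
    choose G hG hG' using h1
    choose B hB hB' using fun i => orbit_small hn hspan (v i) π hπ
    obtain ⟨E, hE, hE'⟩ := hI.codim π hπ
    refine ⟨(∏ s, G s) * (∏ i, B i) * E, ?_, ?_⟩
    · rintro z (⟨ρ1, ρ2, hne, h1, h2⟩ | ⟨i, hi⟩ | hz)
      · rw [map_mul, map_mul, map_prod, Finset.prod_eq_zero (Finset.mem_univ (ρ1, ρ2)), zero_mul,
          zero_mul]
        exact hG' (ρ1, ρ2) hne z h1 h2
      · rw [map_mul, map_mul, map_prod (MvPolynomial.eval z) B,
          Finset.prod_eq_zero (Finset.mem_univ i), mul_zero, zero_mul]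
        exact hB i z hi
      · rw [map_mul, hz E hE, mul_zero]
    · intro hd
      rcases hπ.prime.dvd_or_dvd hd with h | h
      · rcases hπ.prime.dvd_or_dvd h with h | h
        · obtain ⟨s, _, hs⟩ := (Prime.dvd_finsetProd_iff hπ.prime _).1 h
          exact hG s hs
        · obtain ⟨i, _, hi⟩ := (Prime.dvd_finsetProd_iff hπ.prime _).1 h
          exact hB' i hi
      · exact hE' h
  obtain ⟨ρ⟩ := exists_ray (by omega) hspan
  exact small_of_key ρ key

end Pool.Agent.ToricCurves
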