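import Pool.Agent.Lib_MP_1858fb.Lin

/-!
# MP_1858fb_ag: very free curves through points of quotients of representations

The definitions are in `Lib_MP_1858fb/LinDefs.lean`.
-/

set_option autoImplicit false

namespace Pool.Agent.OldResults.MP_1858fb_ag.LinearQuotients

open Polynomial Matrix
open Pool.Agent.LinearQuotients
open Pool.Agent.ToricCurves (hermite pert pert_monic pert_natDegree pert_eval pert_at gp eval_fin eval_inf
  der_zero der_one two_values small_of_key)

/-- the set to be avoided -/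
def bad {r : ℕ} {k : Type} [Field k] (G : Subgroup (GL (Fin r) k)) {m : ℕ} (v : Fin m → Fin r → k)
    (I : Ideal (MvPolynomial (Fin r) k)) : Set (Fin r → k) :=
  {z | ¬ InU I z ∨ ∃ i, Same G (v i) z}

/-- **Theorem.** Let `k` be algebraically closed, `G` a group of invertible matrices which contains all
`diag(c^(w_1), .., c^(w_r))`, `c ≠ 0`, where all `w_j ≥ 1`. Let `U ⊂ W = k^r` be a `G`-stable open subset
whose complement has codimension at least two, and suppose that the (closures of the) orbits in `U` have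
codimension at least two, i.e. `dim V ≥ 2` for `V = U/G`. Then for all pairwise distinct points `v i`,
`i < m`, of `V` and all nonzero tangent vectors `h i` of `V` at `v i` there is a very free curve in `V`
which passes through every `v i` exactly once, and has the derivative `h i` there. -/
theorem result (k : Type) [Field k] [IsAlgClosed k] (r : ℕ) (G : Subgroup (GL (Fin r) k))
    (w : Fin r → ℕ) (hw : ∀ j, 0 < w j)
    (hG : ∀ c : kˣ, ∃ g ∈ G, (g : Matrix (Fin r) (Fin r) k) = Matrix.diagonal fun j => (c : k) ^ w j)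
    (I : Ideal (MvPolynomial (Fin r) k))
    (hI : ∀ π : MvPolynomial (Fin r) k, Irreducible π → ∃ E ∈ I, ¬ π ∣ E)
    (hstable : ∀ x y, Same G x y → InU I x → InU I y)
    (hdim : ∀ x, InU I x → ∀ π : MvPolynomial (Fin r) k, Irreducible π →
      ∃ E : MvPolynomial (Fin r) k, (∀ y, Same G x y → MvPolynomial.eval y E = 0) ∧ ¬ π ∣ E)
    (m : ℕ) (hm : 0 < m) (v h : Fin m → Fin r → k) (hv : ∀ i, InU I (v i))
    (hdist : ∀ i j, Same G (v i) (v j) → i = j) (hh : ∀ i, ¬ ZeroAt G (v i) (h i)) :
    ∃ C : Curve w I, C.VeryFree G ∧ ∀ i, C.SmoothAt G (v i) (h i) := by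
  classical
  have : Infinite k := IsAlgClosed.instInfinite
  obtain ⟨m, rfl⟩ : ∃ m', m = m' + 1 := ⟨m - 1, by omega⟩
  -- the index set is not empty
  have hr : Nonempty (Fin r) := by
    by_contra hcon
    rw [not_nonempty_iff] at hcon
    apply hh 0
    exact ⟨0, lie_zero, by funext j; exact hcon.elim j⟩
  obtain ⟨ρ0⟩ := hr
  -- the ideal of the bad set
  set J : Ideal (MvPolynomial (Fin r) k) :=
    { carrier := {E | ∀ z ∈ bad G v I, MvPolynomial.eval z E = 0}
      add_mem' := fun {E H} hE hH z hz => by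
        rw [map_add, hE z hz, hH z hz, add_zero]
      zero_mem' := fun z _ => by rw [map_zero]
      smul_mem' := fun c E hE z hz => by
        rw [smul_eq_mul, map_mul, hE z hz, mul_zero] } with hJ
  have hJmem : ∀ E, E ∈ J → ∀ z ∈ bad G v I, MvPolynomial.eval z E = 0 := fun E hE => hE
  have hsmall : ToricCurves.Small J := by
    apply small_of_key ρ0
    intro π hπ
    choose B hB hB' using fun i => hdim (v i) (hv i) π hπ
    obtain ⟨E, hE, hE'⟩ := hI π hπ
    refine ⟨(∏ i, B i) * E, ?_, ?_⟩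
    · rintro z (hz | ⟨i, hi⟩)
      · have h0 : MvPolynomial.eval z E = 0 := by
          by_contra hne
          exact hz ⟨E, hE, hne⟩
        rw [map_mul, h0, mul_zero]
      · rw [map_mul, map_prod (MvPolynomial.eval z) B, Finset.prod_eq_zero (Finset.mem_univ i), zero_mul]
        exact hB i z hi
    · intro hd
      rcases hπ.prime.dvd_or_dvd hd with h | h
      · obtain ⟨i, _, hi⟩ := (Prime.dvd_finsetProd_iff hπ.prime _).1 h
        exact hB' i hi
      · exact hE' h
  -- the points of the line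
  obtain ⟨a, ha⟩ : ∃ a : Fin (m + 1) → k, Function.Injective a :=
    ⟨fun i => Infinite.natEmbedding k i, fun i j hij =>
      Fin.ext ((Infinite.natEmbedding k).injective hij)⟩
  set A : Finset k := Finset.univ.image a with hA
  have hmemA : ∀ t, t ∉ A → ∀ i, t ≠ a i := by
    intro t ht i hti
    exact ht (Finset.mem_image.2 ⟨i, Finset.mem_univ i, hti.symm⟩)
  choose P hP using fun ρ => hermite a ha (fun i => v i ρ) (fun i => h i ρ)
  set D : ℕ := 2 * (m + 1) + 1 + ∑ ρ, (P ρ).natDegree with hD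
  set d : Fin r → ℕ := fun ρ => D * w ρ with hd
  have hDd : ∀ ρ, D ≤ d ρ := fun ρ => Nat.le_mul_of_pos_right D (hw ρ)
  have hPd : ∀ ρ, (P ρ).natDegree < d ρ := by
    intro ρ
    have h1 : (P ρ).natDegree ≤ ∑ ρ, (P ρ).natDegree :=
      Finset.single_le_sum (f := fun ρ => (P ρ).natDegree) (fun _ _ => Nat.zero_le _)
        (Finset.mem_univ ρ)
    have := hDd ρ
    omega
  have hd2 : ∀ ρ, 2 * (m + 1) ≤ d ρ := by
    intro ρ
    have := hDd ρ
    omega
  have hdpos : ∀ ρ, 0 < d ρ := by
    intro ρ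
    have := hd2 ρ
    omega
  -- multiplication with the one-parameter group
  have hscale : ∀ (x : Fin r → k) (c : k), c ≠ 0 → Same G x (fun ρ => c ^ d ρ * x ρ) := by
    intro x c hc
    obtain ⟨g, hg, hg'⟩ := hG (Units.mk0 c hc ^ D)
    refine ⟨g, hg, ?_⟩
    rw [hg']
    funext ρ
    rw [Matrix.mulVec_diagonal]
    simp [hd, pow_mul]
  set Q : Fin r → k[X] := fun ρ => pert a (d ρ) with hQ
  obtain ⟨G0, hG0, hG0n⟩ := Submodule.exists_mem_ne_zero_of_ne_bot hsmall.1
  obtain ⟨y, hy1, _, hyG⟩ := gp A r P Q (fun ρ t ht => pert_eval a (d ρ) t (hmemA t ht))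
    J hsmall 1 G0 one_ne_zero hG0n
  have hybad : y ∉ bad G v I := fun hbad => hyG (hJmem G0 hG0 y hbad)
  -- the polynomials
  set f : Fin r → k[X] := fun ρ => P ρ + C (y ρ) * Q ρ with hf
  have hfe : ∀ ρ t, (f ρ).eval t = (P ρ).eval t + (Q ρ).eval t * y ρ := by
    intro ρ t
    simp [hf, mul_comm]
  have hfd : ∀ ρ, (f ρ).natDegree ≤ d ρ := by
    intro ρ
    refine (natDegree_add_le _ _).trans (max_le (hPd ρ).le ?_)
    refine (natDegree_C_mul_le _ _).trans ?_
    rw [hQ]
    exact (pert_natDegree a (d ρ) (hd2 ρ)).le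
  have hfc : ∀ ρ, (f ρ).coeff (d ρ) = y ρ := by
    intro ρ
    have h1 : (Q ρ).coeff (d ρ) = 1 := by
      have h2 := (pert_monic a (d ρ)).coeff_natDegree
      rwa [pert_natDegree a (d ρ) (hd2 ρ)] at h2
    simp only [hf, coeff_add, coeff_C_mul, h1, mul_one]
    rw [coeff_eq_zero_of_natDegree_lt (hPd ρ), zero_add]
  have hfa : ∀ i ρ, (f ρ).eval (a i) = v i ρ ∧ (f ρ).derivative.eval (a i) = h i ρ := by
    intro i ρ
    obtain ⟨h1, h2⟩ := pert_at a (d ρ) i
    obtain ⟨h3, h4⟩ := hP ρ i
    constructor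
    · rw [hfe, h3]
      simp only [hQ, h1, zero_mul, add_zero]
    · simp only [hf, hQ, derivative_add, derivative_C_mul, eval_add, eval_mul, eval_C, h2, h4,
        mul_zero, add_zero]
  have hgood : ∀ t ∉ A, (fun ρ => (f ρ).eval t) ∉ bad G v I := by
    intro t ht hbad
    obtain ⟨E, hE, hE1⟩ := hy1 t ht
    apply hE1
    have h1 : (fun ρ => (P ρ).eval t + (Q ρ).eval t * y ρ) = fun ρ => (f ρ).eval t := by
      funext ρ
      rw [hfe]
    rw [h1]
    exact hJmem E hE _ hbad
  -- values of the forms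
  have hvfin : ∀ p : Fin 2 → k, p 1 ≠ 0 → (fun ρ => MvPolynomial.eval p ((f ρ).homogenize (d ρ))) =
      fun ρ => p 1 ^ d ρ * (f ρ).eval (p 0 / p 1) := by
    intro p hp
    funext ρ
    exact eval_fin (f ρ) (d ρ) (hfd ρ) p hp
  have hvinf : ∀ p : Fin 2 → k, p 1 = 0 → (fun ρ => MvPolynomial.eval p ((f ρ).homogenize (d ρ))) =
      fun ρ => p 0 ^ d ρ * y ρ := by
    intro p hp
    funext ρ
    rw [eval_inf (f ρ) (d ρ) (hfd ρ) p hp, hfc]
  have hpt : ∀ t, InU I (fun ρ => (f ρ).eval t) := by
    intro t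
    by_cases ht : t ∈ A
    · obtain ⟨i, _, rfl⟩ := Finset.mem_image.1 ht
      have h1 : (fun ρ => (f ρ).eval (a i)) = v i := by
        funext ρ
        exact (hfa i ρ).1
      rw [h1]
      exact hv i
    · by_contra hcon
      exact hgood t ht (Or.inl hcon)
  have hp0 : ∀ p : Fin 2 → k, p ≠ 0 → p 1 = 0 → p 0 ≠ 0 := by
    intro p hp h1 h0
    apply hp
    funext i
    fin_cases i
    · exact h0
    · exact h1
  let Γ : Curve w I :=
    { deg := D
      pos := by omega
      form := fun ρ => (f ρ).homogenize (d ρ)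
      isForm := fun ρ => isHomogeneous_homogenize _
      inU := fun p hp => by
        by_cases h1 : p 1 = 0
        · rw [hvinf p h1]
          refine hstable _ _ (hscale y _ (hp0 p hp h1)) ?_
          by_contra hcon
          exact hybad (Or.inl hcon)
        · rw [hvfin p h1]
          exact hstable _ _ (hscale _ _ h1) (hpt _) }
  have hval : ∀ p, Γ.val p = fun ρ => MvPolynomial.eval p ((f ρ).homogenize (d ρ)) := fun p => rfl
  have hvala : ∀ i, Γ.val ![a i, 1] = v i := by
    intro i
    rw [hval, hvfin ![a i, 1] (by simp)]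
    funext ρ
    simp [(hfa i ρ).1]
  have hder : ∀ i (u : Fin 2 → k), Γ.der ![a i, 1] u =
      fun ρ => (u 0 - a i * u 1) * h i ρ + u 1 * d ρ * v i ρ := by
    intro i u
    funext ρ
    change ∑ l, u l * MvPolynomial.eval ![a i, 1] (MvPolynomial.pderiv l ((f ρ).homogenize (d ρ))) = _
    rw [Fin.sum_univ_two, der_zero _ _ (hfd ρ), der_one _ _ (hfd ρ), (hfa i ρ).1, (hfa i ρ).2]
    ring
  refine ⟨Γ, ?_, fun i => ⟨![a i, 1], ?_, hvala i, ?_, ?_, ![1, 0], ?_⟩⟩
  · -- very free
    intro p q hpq b c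
    choose H hH hHp hHq using fun ρ => two_values hpq (d ρ) (hdpos ρ) (b ρ) (c ρ)
    refine ⟨H, hH, ⟨0, lie_zero, ?_⟩, ⟨0, lie_zero, ?_⟩⟩
    · funext ρ
      simp [hHp ρ]
    · funext ρ
      simp [hHq ρ]
  · intro h0
    have := congrFun h0 1
    simp at this
  · -- uniqueness
    intro q hq hsame
    rw [hval] at hsame
    by_cases h1 : q 1 = 0
    · exfalso
      rw [hvinf q h1] at hsame
      exact hybad (Or.inr ⟨i, same_trans hsame (same_symm (hscale y _ (hp0 q hq h1)))⟩)
    · rw [hvfin q h1] at hsame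
      have h2 : Same G (v i) (fun ρ => (f ρ).eval (q 0 / q 1)) :=
        same_trans hsame (same_symm (hscale _ _ h1))
      by_cases ht : q 0 / q 1 ∈ A
      · obtain ⟨j, _, hj⟩ := Finset.mem_image.1 ht
        have h3 : (fun ρ => (f ρ).eval (q 0 / q 1)) = v j := by
          funext ρ
          rw [← hj]
          exact (hfa j ρ).1
        rw [h3] at h2
        have h4 := hdist i j h2
        refine ⟨q 1, ?_⟩
        funext l
        fin_cases l
        · simp only [Fin.zero_eta, Fin.isValue, Pi.smul_apply, Matrix.cons_val_zero, smul_eq_mul]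
          rw [h4, hj]
          field_simp
        · simp
      · exact absurd (Or.inr ⟨i, h2⟩) (hgood _ ht)
  · -- immersion
    intro u hu
    rw [hder] at hu
    obtain ⟨B, hB, hBv⟩ := hu
    by_cases h1 : u 0 - a i * u 1 = 0
    · refine ⟨u 1, ?_⟩
      funext l
      fin_cases l
      · simp only [Fin.zero_eta, Fin.isValue, Pi.smul_apply, Matrix.cons_val_zero, smul_eq_mul]
        linear_combination h1
      · simp
    · exfalso
      apply hh i
      refine ⟨(u 0 - a i * u 1)⁻¹ • B + (-((u 0 - a i * u 1)⁻¹ * u 1 * D)) •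
        Matrix.diagonal (fun j => (w j : k)), lie_comb hB (lie_diag w hG) _ _, ?_⟩
      rw [Matrix.add_mulVec, Matrix.smul_mulVec, Matrix.smul_mulVec, ← hBv]
      funext ρ
      simp only [Pi.add_apply, Pi.smul_apply, smul_eq_mul, Matrix.mulVec_diagonal]
      have h2 : (d ρ : k) = D * w ρ := by
        rw [hd]
        push_cast
        rfl
      rw [h2]
      field_simp
      ring
  · rw [hder]
    funext ρ
    simp

end Pool.Agent.OldResults.MP_1858fb_ag.LinearQuotients
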