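import Pool.Agent.Lib_MP_1858fb.Final
import Pool.Agent.Lib_MP_1858fb.DimOne

/-!
# MP_1858fb_ag: very free curves through points of smooth toric varieties

The definitions are in `Lib_MP_1858fb/Defs.lean`: `Fan` (smooth fans in `ℤ^n`), `IsPoint`, `Same` (the
closed points of the toric variety `X` in Cox coordinates), `ZeroAt` (its tangent spaces), `Curve` (the
morphisms from the projective line to `X`), `VeryFree`, `SmoothAt`, `HasTangent`, `IsCodimTwo` (closed
subsets `Z` of `X` of codimension at least two, possibly empty), `Avoids`.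

If the rays do not span `k^n` then `X` carries a nonzero regular 1-form, and it is not separably
rationally connected; so `RaysSpan F k` is no restriction. `X` is not supposed to be proper.
-/

set_option autoImplicit false

namespace Pool.Agent.OldResults.MP_1858fb_ag.ToricVarieties

open Pool.Agent.ToricCurves

/-- **Theorem.** Let `X` be the smooth toric variety of dimension `n ≥ 1` of the fan `F` over the
algebraically closed field `k`. Suppose that `X` has a very free curve, and let `Z ⊂ X` be closed of
codimension at least two. Then for all pairwise distinct points `v i`, `i < m`, of `V = X \ Z` there is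
a very free curve in `V` which contains all `v i` as smooth points, and which has at `v i` the tangent
vector `h i` whenever this is not zero in the tangent space of `V`. -/
theorem result (k : Type) [Field k] [IsAlgClosed k] (n r : ℕ) (hn : 0 < n) (F : Fan n r)
    (hspan : RaysSpan F k) (hfree : ∃ C : Curve F k, C.VeryFree)
    (I : Ideal (MvPolynomial (Fin r) k)) (hI : IsCodimTwo F I)
    (m : ℕ) (v h : Fin m → Fin r → k) (hv : ∀ i, IsPoint F (v i))
    (hvI : ∀ i, ∃ G ∈ I, MvPolynomial.eval (v i) G ≠ 0) (hdist : ∀ i j, Same F (v i) (v j) → i = j) :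
    ∃ C : Curve F k, C.VeryFree ∧ C.Avoids I ∧
      ∀ i, C.SmoothAt (v i) ∧ (¬ ZeroAt F (v i) (h i) → C.HasTangent (v i) (h i)) := by
  classical
  obtain ⟨C0, hC0⟩ := hfree
  obtain ⟨e, he, hbal⟩ := exists_pos hspan C0 hC0
  have : Infinite k := IsAlgClosed.instInfinite
  by_cases hn2 : 2 ≤ n
  · rcases m with _ | m
    · -- no points: add one
      have hS : ToricCurves.Small I := small_of_key (exists_ray hn hspan).some hI.codim
      obtain ⟨G, hG, hG0⟩ := Submodule.exists_mem_ne_zero_of_ne_bot hS.1
      have hne : G * ∏ ρ, MvPolynomial.X ρ ≠ 0 :=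
        mul_ne_zero hG0 (Finset.prod_ne_zero_iff.2 fun ρ _ => MvPolynomial.X_ne_zero ρ)
      obtain ⟨x, hx⟩ : ∃ x : Fin r → k, MvPolynomial.eval x (G * ∏ ρ, MvPolynomial.X ρ) ≠ 0 := by
        by_contra hcon
        push Not at hcon
        exact hne (MvPolynomial.funext fun x => by rw [hcon, map_zero])
      rw [map_mul, map_prod] at hx
      have hx0 : ∀ ρ, x ρ ≠ 0 := by
        intro ρ
        have := Finset.prod_ne_zero_iff.1 (right_ne_zero_of_mul hx) ρ (Finset.mem_univ ρ)
        simpa using this
      obtain ⟨h', hh'⟩ := exists_tangent hn hspan x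
      obtain ⟨C, hC, hCI, _⟩ := exists_curve (m := 0) hn2 hspan e he hbal (fun _ => x) (fun _ => h')
        (fun _ => ⟨∅, F.zero, fun ρ => by simp [hx0 ρ]⟩) (fun i j _ => Fin.ext (by omega))
        (fun _ => hh') I hI (fun _ => ⟨G, hG, left_ne_zero_of_mul hx⟩)
      exact ⟨C, hC, hCI, fun i => i.elim0⟩
    · have h1 : ∀ i, ∃ h' : Fin r → k, ¬ ZeroAt F (v i) h' ∧ (¬ ZeroAt F (v i) (h i) → h' = h i) := by
        intro i
        by_cases hz : ZeroAt F (v i) (h i)
        · obtain ⟨h', hh'⟩ := exists_tangent hn hspan (v i)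
          exact ⟨h', hh', fun hc => absurd hz hc⟩
        · exact ⟨h i, hz, fun _ => rfl⟩
      choose h' hh' hh'' using h1
      obtain ⟨C, hC, hCI, hCi⟩ :=
        exists_curve hn2 hspan e he hbal v h' hv hdist hh' I hI hvI
      refine ⟨C, hC, hCI, fun i => ⟨(hCi i).1, fun hz => ?_⟩⟩
      rw [← hh'' i hz]
      exact (hCi i).2
  · obtain rfl : n = 1 := by omega
    obtain ⟨C, hC, hCI, hCv⟩ :=
      exists_curve_one (k := k) F (exists_ray hn hspan) e he hbal I hI
    exact ⟨C, hC, hCI, fun i => ⟨(hCv (v i) (h i) (hv i)).1, fun _ => (hCv (v i) (h i) (hv i)).2⟩⟩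

end Pool.Agent.OldResults.MP_1858fb_ag.ToricVarieties
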