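import Pool.Agent.Lib_MP_1858fb.Pos
import Pool.Agent.Lib_MP_1858fb.GP

/-! The orbits of the group `G` have codimension at least two when `n ≥ 2`. -/

set_option autoImplicit false

namespace Pool.Agent.ToricCurves

open MvPolynomial

variable {n r : ℕ} {F : Fan n r} {k : Type} [Field k]

/-- a monomial -/
noncomputable def mon (k : Type) [Field k] {r : ℕ} (α : Fin r → ℤ) : MvPolynomial (Fin r) k :=
  ∏ ρ, X ρ ^ (α ρ).toNat

/-- a binomial -/
noncomputable def bin {r : ℕ} (α : Fin r → ℤ) (c : k) : MvPolynomial (Fin r) k :=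
  mon k α - C c * mon k (-α)

theorem eval_mon (α : Fin r → ℤ) (z : Fin r → k) :
    eval z (mon k α) = ∏ ρ, z ρ ^ (α ρ).toNat := by
  simp [mon]

theorem bin_ne (α : Fin r → ℤ) (hα : α ≠ 0) (c : k) (hc : c ≠ 0) : bin α c ≠ 0 := by
  classical
  have hex : ∃ ρ, α ρ ≠ 0 := by
    by_contra hcon
    push Not at hcon
    exact hα (funext hcon)
  obtain ⟨ρ, hρ⟩ := hex
  intro h0
  have h1 : eval (fun ρ' => if ρ' = ρ then (0 : k) else 1) (bin α c) = 0 := by rw [h0, map_zero]
  rw [bin, map_sub, map_mul, eval_C, eval_mon, eval_mon] at h1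
  have hprod : ∀ β : Fin r → ℤ, ∏ ρ', (if ρ' = ρ then (0 : k) else 1) ^ (β ρ').toNat =
      (0 : k) ^ (β ρ).toNat := by
    intro β
    rw [Finset.prod_eq_single ρ]
    · rw [if_pos rfl]
    · intro ρ' _ hne
      rw [if_neg hne, one_pow]
    · simp
  rw [hprod, hprod] at h1
  rcases lt_or_gt_of_ne hρ with h | h
  · have h2 : (α ρ).toNat = 0 := by omega
    have h3 : ((-α) ρ).toNat ≠ 0 := by
      simp only [Pi.neg_apply]
      omega
    rw [h2, zero_pow h3] at h1
    simp at h1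
  · have h2 : ((-α) ρ).toNat = 0 := by
      simp only [Pi.neg_apply]
      omega
    have h3 : (α ρ).toNat ≠ 0 := by omega
    rw [h2, zero_pow h3] at h1
    simp at h1
    exact hc h1

theorem degreeOf_mon (α : Fin r → ℤ) (ρ : Fin r) (h : (α ρ).toNat = 0) :
    degreeOf ρ (mon k α) = 0 := by
  classical
  have h1 : degreeOf ρ (mon k α) ≤ ∑ ρ', degreeOf ρ (X ρ' ^ (α ρ').toNat : MvPolynomial (Fin r) k) :=
    degreeOf_prod_le _ _ _
  have h2 : ∑ ρ', degreeOf ρ (X ρ' ^ (α ρ').toNat : MvPolynomial (Fin r) k) = 0 := by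
    apply Finset.sum_eq_zero
    intro ρ' _
    by_cases he : ρ' = ρ
    · rw [he, h, pow_zero]
      simp
    · have h3 : degreeOf ρ (X ρ' ^ (α ρ').toNat : MvPolynomial (Fin r) k) ≤
          (α ρ').toNat * degreeOf ρ (X ρ' : MvPolynomial (Fin r) k) := degreeOf_pow_le _ _ _
      rw [degreeOf_X, if_neg (fun h => he h.symm), mul_zero] at h3
      omega
  omega

theorem degreeOf_bin (α : Fin r → ℤ) (c : k) (ρ : Fin r) (h : α ρ = 0) :
    degreeOf ρ (bin α c) = 0 := by
  have h1 : degreeOf ρ (mon k α) = 0 := degreeOf_mon α ρ (by rw [h]; rfl)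
  have h2 : degreeOf ρ (mon k (-α)) = 0 := degreeOf_mon (-α) ρ (by simp [h])
  have h3 : degreeOf ρ (C c * mon k (-α)) ≤ degreeOf ρ (mon k (-α)) := degreeOf_C_mul_le _ _ _
  have h4 := degreeOf_sub_le ρ (mon k α) (C c * mon k (-α))
  rw [bin]
  omega

theorem dvd_mon {π : MvPolynomial (Fin r) k} (hπ : Irreducible π) (α : Fin r → ℤ)
    (h : π ∣ mon k α) : ∃ ρ, π ∣ X ρ ∧ (α ρ).toNat ≠ 0 := by
  rw [mon, Prime.dvd_finsetProd_iff hπ.prime] at h
  obtain ⟨ρ, _, hρ⟩ := h
  refine ⟨ρ, hπ.prime.dvd_of_dvd_pow hρ, ?_⟩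
  intro h0
  rw [h0, pow_zero] at hρ
  exact hπ.not_isUnit (isUnit_of_dvd_one hρ)

theorem eq_of_dvd {π : MvPolynomial (Fin r) k} (hπ : Irreducible π) {ρ ρ' : Fin r}
    (h : π ∣ X ρ) (h' : π ∣ X ρ') : ρ = ρ' := by
  have h1 : Associated π (X ρ) := hπ.associated_of_dvd (X_prime (i := ρ)).irreducible h
  have h2 : (X ρ : MvPolynomial (Fin r) k) ∣ X ρ' := h1.symm.dvd.trans h'
  exact X_dvd_X.1 h2

/-- two binomials without common factor -/
theorem bins {π : MvPolynomial (Fin r) k} (hπ : Irreducible π) (α β : Fin r → ℤ) (c d : k)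
    (hc : c ≠ 0) (hd : d ≠ 0) (hα : α ≠ 0) (ρ : Fin r) (h0 : α ρ = 0) (h1 : 0 < β ρ)
    (hπα : π ∣ bin α c) (hπβ : π ∣ bin β d) : False := by
  classical
  obtain ⟨S, hS⟩ := hπα
  have hne := bin_ne α hα c hc
  have hS0 : S ≠ 0 := by
    rintro rfl
    rw [mul_zero] at hS
    exact hne hS
  have hdeg : degreeOf ρ π = 0 := by
    have h2 := degreeOf_bin α c ρ h0
    rw [hS, degreeOf_mul_eq hπ.ne_zero hS0] at h2
    omega
  set ψ : MvPolynomial (Fin r) k →ₐ[k] MvPolynomial (Fin r) k :=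
    aeval (fun ρ' => if ρ' = ρ then 0 else X ρ') with hψ
  have hψπ : ψ π = π := by
    have h3 : ((ψ : _ →+* _) : MvPolynomial (Fin r) k →+* MvPolynomial (Fin r) k) π =
        (RingHom.id (MvPolynomial (Fin r) k)) π := by
      apply hom_congr_vars
      · ext a
        simp
      · intro i hi _
        have h4 : i ≠ ρ := by
          rintro rfl
          rw [vars_def, Multiset.mem_toFinset, ← Multiset.one_le_count_iff_mem, ← degreeOf_def,
            hdeg] at hi
          omega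
        simp [hψ, h4]
      · rfl
    exact h3
  have hψ1 : ψ (mon k β) = 0 := by
    rw [mon, map_prod]
    apply Finset.prod_eq_zero (Finset.mem_univ ρ)
    rw [map_pow, hψ, aeval_X, if_pos rfl, zero_pow]
    omega
  have hψ2 : ψ (mon k (-β)) = mon k (-β) := by
    rw [mon, map_prod]
    refine Finset.prod_congr rfl fun ρ' _ => ?_
    rw [map_pow, hψ, aeval_X]
    split_ifs with he
    · have h5 : ((-β) ρ').toNat = 0 := by
        rw [he, Pi.neg_apply]
        omega
      rw [h5, pow_zero, pow_zero]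
    · rfl
  have h6 : π ∣ ψ (bin β d) := by
    have := map_dvd ψ hπβ
    rwa [hψπ] at this
  rw [bin, map_sub, map_mul, hψ1, hψ2, zero_sub, dvd_neg, hψ, aeval_C, algebraMap_eq] at h6
  have hu : IsUnit (C d : MvPolynomial (Fin r) k) := (isUnit_iff_ne_zero.2 hd).map C
  have h7 : π ∣ mon k (-β) := (IsUnit.dvd_mul_left hu).1 h6
  have h8 : π ∣ mon k β := by
    have h9 : mon k β = bin β d + C d * mon k (-β) := by
      rw [bin]
      ring
    rw [h9]
    exact dvd_add hπβ (h7.mul_left _)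
  obtain ⟨ρ1, h10, h11⟩ := dvd_mon hπ _ h7
  obtain ⟨ρ2, h12, h13⟩ := dvd_mon hπ _ h8
  have h14 := eq_of_dvd hπ h10 h12
  rw [h14, Pi.neg_apply] at h11
  omega

theorem zpow_sum {G ι : Type} [CommGroup G] (a : G) (s : Finset ι) (f : ι → ℤ) :
    a ^ (∑ i ∈ s, f i) = ∏ i ∈ s, a ^ f i := by
  classical
  induction s using Finset.induction_on with
  | empty => simp
  | insert i s hi ih => rw [Finset.sum_insert hi, Finset.prod_insert hi, zpow_add, ih]

/-- a binomial which vanishes on an orbit -/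
theorem bin_orbit (m : Fin n → ℤ) (v : Fin r → k)
    (hv : ∀ ρ, v ρ = 0 → ∑ i, m i * F.ray ρ i = 0) :
    ∃ c : k, c ≠ 0 ∧ ∀ z, Same F v z → eval z (bin (fun ρ => ∑ i, m i * F.ray ρ i) c) = 0 := by
  classical
  set α : Fin r → ℤ := fun ρ => ∑ i, m i * F.ray ρ i with hα
  have hvt : ∀ ρ, ∃ u : kˣ, v ρ ≠ 0 → (u : k) = v ρ := by
    intro ρ
    by_cases h : v ρ = 0
    · exact ⟨1, fun h' => absurd h h'⟩
    · exact ⟨Units.mk0 _ h, fun _ => rfl⟩
  choose u hu using hvt
  refine ⟨((∏ ρ, u ρ ^ α ρ : kˣ) : k), Units.ne_zero _, ?_⟩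
  rintro z ⟨g, hg, hz⟩
  have hg1 : ∏ ρ, g ρ ^ α ρ = 1 := by
    calc ∏ ρ, g ρ ^ α ρ = ∏ ρ, ∏ i, (g ρ ^ F.ray ρ i) ^ m i := by
          refine Finset.prod_congr rfl fun ρ _ => ?_
          rw [hα]
          simp only
          rw [zpow_sum]
          refine Finset.prod_congr rfl fun i _ => ?_
          rw [← zpow_mul, mul_comm]
      _ = ∏ i, (∏ ρ, g ρ ^ F.ray ρ i) ^ m i := by
          rw [Finset.prod_comm]
          refine Finset.prod_congr rfl fun i _ => ?_
          rw [Finset.prod_zpow]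
      _ = 1 := by
          apply Finset.prod_eq_one
          intro i _
          rw [hg, one_zpow]
  have hmon : ∀ β : Fin r → ℤ, (∀ ρ, α ρ = 0 → β ρ = 0) →
      eval z (mon k β) = ((∏ ρ, (g ρ * u ρ) ^ (β ρ).toNat : kˣ) : k) := by
    intro β hβ
    rw [eval_mon]
    push_cast
    refine Finset.prod_congr rfl fun ρ _ => ?_
    by_cases h : v ρ = 0
    · have h1 := hβ ρ (hv ρ h)
      rw [h1]
      simp
    · rw [hz, hu ρ h]
  have h2 : ∏ ρ, (g ρ * u ρ) ^ (α ρ).toNat =
      (∏ ρ, u ρ ^ α ρ) * ∏ ρ, (g ρ * u ρ) ^ ((-α) ρ).toNat := by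
    calc ∏ ρ, (g ρ * u ρ) ^ (α ρ).toNat
        = ∏ ρ, ((g ρ ^ α ρ * u ρ ^ α ρ) * (g ρ * u ρ) ^ ((-α) ρ).toNat) := by
          refine Finset.prod_congr rfl fun ρ _ => ?_
          rw [← mul_zpow, ← zpow_natCast, ← zpow_natCast, ← zpow_add]
          congr 1
          rw [Pi.neg_apply]
          omega
      _ = _ := by
          rw [Finset.prod_mul_distrib, Finset.prod_mul_distrib, hg1, one_mul]
  rw [bin, map_sub, map_mul, eval_C, hmon α (fun _ h => h),
    hmon (-α) (fun ρ h => by rw [Pi.neg_apply, h, neg_zero]), h2]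
  push_cast
  ring

theorem exists_orth (hn : 2 ≤ n) (u : Fin n → ℤ) : ∃ m : Fin n → ℤ, m ≠ 0 ∧ ∑ i, m i * u i = 0 := by
  classical
  have h0 : 0 < n := by omega
  have h1 : 1 < n := by omega
  set a : Fin n := ⟨0, h0⟩ with ha
  set b : Fin n := ⟨1, h1⟩ with hb
  have hab : a ≠ b := by
    intro h
    have := congrArg Fin.val h
    simp [ha, hb] at this
  by_cases hu : u a = 0
  · refine ⟨Pi.single a 1, ?_, ?_⟩
    · intro h
      have := congrFun h a
      simp at this
    · rw [Finset.sum_eq_single a]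
      · simp [hu]
      · intro i _ hi
        simp [hi]
      · simp
  · refine ⟨fun i => if i = a then - u b else if i = b then u a else 0, ?_, ?_⟩
    · intro h
      have := congrFun h b
      simp only [if_neg hab.symm, Pi.zero_apply, if_true] at this
      exact hu this
    · rw [← Finset.sum_subset (Finset.subset_univ {a, b})]
      · rw [Finset.sum_pair hab]
        simp only [if_true, if_neg hab.symm]
        ring
      · intro i _ hi
        simp only [Finset.mem_insert, Finset.mem_singleton, not_or] at hi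
        simp only [if_neg hi.1, if_neg hi.2, zero_mul]

theorem ray_ne (F : Fan n r) (ρ : Fin r) : F.ray ρ ≠ 0 := by
  obtain ⟨b, e, h⟩ := F.smooth {ρ} (F.single ρ)
  rw [← h ⟨ρ, Finset.mem_singleton_self ρ⟩]
  exact b.ne_zero _

theorem exists_ray (hn : 0 < n) (hspan : RaysSpan F k) : Nonempty (Fin r) := by
  by_contra h
  rw [not_nonempty_iff] at h
  have h1 := eq_zero_of_orth hspan (fun _ => (1 : k)) (fun ρ => (h.false ρ).elim)
  have := congrFun h1 ⟨0, hn⟩
  simp at this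

/-- for every irreducible `π` some polynomial vanishes on the orbit and is not divisible by `π` -/
theorem orbit_small (hn : 2 ≤ n) (hspan : RaysSpan F k) (v : Fin r → k)
    (π : MvPolynomial (Fin r) k) (hπ : Irreducible π) :
    ∃ B : MvPolynomial (Fin r) k, (∀ z, Same F v z → eval z B = 0) ∧ ¬ π ∣ B := by
  classical
  have hzero : ∀ ρ, v ρ = 0 → ∀ z, Same F v z → eval z (X ρ : MvPolynomial (Fin r) k) = 0 := by
    rintro ρ h z ⟨g, _, hz⟩
    rw [eval_X, hz, h, mul_zero]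
  by_cases h2 : ∃ ρ1 ρ2, ρ1 ≠ ρ2 ∧ v ρ1 = 0 ∧ v ρ2 = 0
  · obtain ⟨ρ1, ρ2, hne, h1, h2⟩ := h2
    by_cases hd : π ∣ X ρ1
    · refine ⟨X ρ2, hzero ρ2 h2, fun hd' => hne (eq_of_dvd hπ hd hd')⟩
    · exact ⟨X ρ1, hzero ρ1 h1, hd⟩
  · push Not at h2
    by_cases h1 : ∃ ρ, v ρ = 0
    · obtain ⟨ρ, hρ⟩ := h1
      by_cases hd : π ∣ X ρ
      · obtain ⟨m, hm0, hm⟩ := exists_orth hn (F.ray ρ)
        obtain ⟨c, hc, hB⟩ := bin_orbit (F := F) m v (by
          intro ρ' hρ'
          by_cases he : ρ = ρ'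
          · rw [← he]
            exact hm
          · exact absurd hρ' (h2 ρ ρ' he hρ))
        refine ⟨_, hB, fun hd' => ?_⟩
        have hα : (fun ρ => ∑ i, m i * F.ray ρ i) ≠ 0 := fun h =>
          hm0 (int_orth hspan m (fun ρ => congrFun h ρ))
        have h3 : Associated π (X ρ) := hπ.associated_of_dvd (X_prime (i := ρ)).irreducible hd
        obtain ⟨S, hS⟩ : (X ρ : MvPolynomial (Fin r) k) ∣ bin (fun ρ => ∑ i, m i * F.ray ρ i) c :=
          h3.symm.dvd.trans hd'
        have hne := bin_ne _ hα c hc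
        have hS0 : S ≠ 0 := by
          rintro rfl
          rw [mul_zero] at hS
          exact hne hS
        have h4 := degreeOf_bin (fun ρ => ∑ i, m i * F.ray ρ i) c ρ hm
        rw [hS, degreeOf_mul_eq (X_ne_zero ρ) hS0, degreeOf_X, if_pos rfl] at h4
        omega
      · exact ⟨X ρ, hzero ρ hρ, hd⟩
    · push Not at h1
      obtain ⟨ρ⟩ := exists_ray (by omega) hspan
      obtain ⟨m, hm0, hm⟩ := exists_orth hn (F.ray ρ)
      obtain ⟨c, hc, hB⟩ := bin_orbit (F := F) m v (fun ρ' h => absurd h (h1 ρ'))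
      obtain ⟨d, hd, hD⟩ := bin_orbit (F := F) (F.ray ρ) v (fun ρ' h => absurd h (h1 ρ'))
      have hα : (fun ρ => ∑ i, m i * F.ray ρ i) ≠ 0 := fun h =>
        hm0 (int_orth hspan m (fun ρ => congrFun h ρ))
      have hpos : 0 < ∑ i, F.ray ρ i * F.ray ρ i := by
        have hex : ∃ i, F.ray ρ i ≠ 0 := by
          by_contra hcon
          push Not at hcon
          exact ray_ne F ρ (funext hcon)
        obtain ⟨i, hi⟩ := hex
        exact Finset.sum_pos' (fun _ _ => mul_self_nonneg _)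
          ⟨i, Finset.mem_univ i, mul_self_pos.2 hi⟩
      by_cases hdv : π ∣ bin (fun ρ => ∑ i, m i * F.ray ρ i) c
      · exact ⟨_, hD, fun hdv' => bins hπ _ _ c d hc hd hα ρ hm hpos hdv hdv'⟩
      · exact ⟨_, hB, hdv⟩

end Pool.Agent.ToricCurves
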