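import Pool.Agent.Lib_MP_1858fb.Defs

/-! A very free curve gives a relation between the rays with positive coefficients. -/

set_option autoImplicit false

namespace Pool.Agent.ToricCurves

open MvPolynomial

theorem int_zero (k : Type) [Field k] {ι : Type} [Fintype ι] (T : (ι → ℤ) → Prop)
    (hdiv : ∀ (d : ℤ) (m : ι → ℤ), d ≠ 0 → T (fun i => d * m i) → T m)
    (hk : ∀ m, T m → ∀ i, (m i : k) = 0) (m : ι → ℤ) (hm : T m) : m = 0 := by
  classical
  by_contra hne
  have hex : ∃ i, m i ≠ 0 := by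
    by_contra hcon
    push Not at hcon
    exact hne (funext hcon)
  obtain ⟨i0, hi0⟩ := hex
  obtain ⟨g, hg, hg1⟩ := Finset.extract_gcd m (⟨i0, Finset.mem_univ i0⟩ : Finset.univ.Nonempty)
  have hd : (Finset.univ.gcd m) ≠ 0 := by
    intro h0
    exact hi0 (Finset.gcd_eq_zero_iff.1 h0 i0 (Finset.mem_univ i0))
  have hT : T g := by
    apply hdiv _ g hd
    have : (fun i => Finset.univ.gcd m * g i) = m := by
      funext i
      exact (hg i (Finset.mem_univ i)).symm
    rwa [this]
  have hp : ∀ i, ((ringChar k : ℕ) : ℤ) ∣ g i := fun i =>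
    (CharP.intCast_eq_zero_iff k (ringChar k) (g i)).1 (hk g hT i)
  have h1 : ((ringChar k : ℕ) : ℤ) ∣ 1 := by
    rw [← hg1]
    exact Finset.dvd_gcd fun i _ => hp i
  have h2 : ringChar k ∣ 1 := by exact_mod_cast h1
  exact CharP.ringChar_ne_one (Nat.dvd_one.1 h2)

variable {n r : ℕ} {F : Fan n r} {k : Type} [Field k]

theorem eq_zero_of_orth (hspan : RaysSpan F k) (m : Fin n → k)
    (h : ∀ ρ, ∑ i, m i * (F.ray ρ i : k) = 0) : m = 0 := by
  classical
  let φ : (Fin n → k) →ₗ[k] k :=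
    { toFun := fun x => ∑ i, m i * x i
      map_add' := fun x y => by simp [mul_add, Finset.sum_add_distrib]
      map_smul' := fun c x => by
        simp only [Pi.smul_apply, smul_eq_mul, RingHom.id_apply, Finset.mul_sum]
        exact Finset.sum_congr rfl fun i _ => by ring }
  have h1 : Submodule.span k (Set.range fun (ρ : Fin r) (i : Fin n) => (F.ray ρ i : k)) ≤
      LinearMap.ker φ := by
    rw [Submodule.span_le]
    rintro x ⟨ρ, rfl⟩
    exact h ρ
  rw [hspan] at h1
  funext i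
  have h2 : φ (Pi.single i 1) = 0 := h1 (Submodule.mem_top)
  have h3 : φ (Pi.single i 1) = m i := by
    change ∑ j, m j * (Pi.single i (1 : k) : Fin n → k) j = m i
    rw [Finset.sum_eq_single i]
    · simp
    · intro j _ hj
      simp [hj]
    · simp
  rw [← h3, h2]
  rfl

/-- an integral functional which vanishes on all rays is zero -/
theorem int_orth (hspan : RaysSpan F k) (m : Fin n → ℤ) (h : ∀ ρ, ∑ i, m i * F.ray ρ i = 0) :
    m = 0 := by
  refine int_zero k (fun m => ∀ ρ, ∑ i, m i * F.ray ρ i = 0) ?_ ?_ m h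
  · intro d m hd hm ρ
    have h1 := hm ρ
    simp only [mul_assoc] at h1
    rw [← Finset.mul_sum] at h1
    exact (mul_eq_zero.1 h1).resolve_left hd
  · intro m hm i
    have := eq_zero_of_orth hspan (fun i => (m i : k)) (by
      intro ρ
      have := congrArg (fun z : ℤ => (z : k)) (hm ρ)
      simpa using this)
    exact congrFun this i

theorem isForm_zero (h : MvPolynomial (Fin 2) k) (hh : IsForm 0 h) (p q : Fin 2 → k) :
    eval p h = eval q h := by
  rw [IsForm, if_pos le_rfl] at hh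
  have h1 : h.totalDegree = 0 := by
    have := hh.totalDegree_le
    simpa using this
  rw [totalDegree_eq_zero_iff_eq_C.1 h1, eval_C, eval_C]

theorem isForm_neg {d : ℤ} (hd : d < 0) (h : MvPolynomial (Fin 2) k) (hh : IsForm d h) : h = 0 := by
  rwa [IsForm, if_neg (not_le.2 hd)] at hh

/-- the two points `0` and `∞` -/
theorem indep : LinearIndependent k ![(![1, 0] : Fin 2 → k), ![0, 1]] := by
  rw [LinearIndependent.pair_iff]
  intro s t h
  have h0 := congrFun h 0
  have h1 := congrFun h 1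
  simp at h0 h1
  exact ⟨h0, h1⟩

theorem deg_nonneg (C : Curve F k) (hC : C.VeryFree) (ρ : Fin r) : 0 ≤ C.deg ρ := by
  by_contra hneg
  push Not at hneg
  obtain ⟨h, hh, ⟨g, _, hg⟩, _⟩ := hC _ _ indep (fun _ => 1) (fun _ => 0)
  have h1 := hg ρ
  simp only [Curve.val] at h1
  rw [isForm_neg hneg _ (hh ρ), isForm_neg hneg _ (C.isForm ρ)] at h1
  simp at h1

theorem form_ne (C : Curve F k) (hC : C.VeryFree) (ρ : Fin r) (hρ : C.deg ρ = 0) (p : Fin 2 → k) :
    C.val p ρ ≠ 0 := by
  intro h0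
  have hc : ∀ q, C.val q ρ = 0 := by
    intro q
    rw [← h0]
    exact isForm_zero _ (hρ ▸ C.isForm ρ) q p
  obtain ⟨h, hh, ⟨g, _, hg⟩, ⟨g', _, hg'⟩⟩ := hC _ _ indep (fun _ => 1) (fun _ => 0)
  have h1 := hg ρ
  have h2 := hg' ρ
  rw [hc, mul_zero, sub_eq_zero] at h1 h2
  rw [isForm_zero _ (hρ ▸ hh ρ) _ (![0, 1])] at h1
  rw [h1] at h2
  exact one_ne_zero h2

theorem exists_lie (C : Curve F k) (hC : C.VeryFree) (c : Fin r → k) :
    ∃ g : Fin r → k, (∀ i, ∑ ρ, g ρ * F.ray ρ i = 0) ∧ ∀ ρ, C.deg ρ = 0 → g ρ = c ρ := by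
  obtain ⟨h, hh, ⟨g, hg0, hg⟩, ⟨g', hg0', hg'⟩⟩ := hC _ _ indep (fun _ => 0)
    (fun ρ => c ρ * C.val ![0, 1] ρ)
  refine ⟨fun ρ => g ρ - g' ρ, ?_, ?_⟩
  · intro i
    simp only [sub_mul, Finset.sum_sub_distrib, hg0, hg0', sub_self]
  · intro ρ hρ
    have h1 := hg ρ
    have h2 := hg' ρ
    simp only at h1 h2
    have h3 : eval ![(1 : k), 0] (h ρ) = eval ![0, 1] (h ρ) := isForm_zero _ (hρ ▸ hh ρ) _ _
    have h4 : C.val ![(1 : k), 0] ρ = C.val ![0, 1] ρ := isForm_zero _ (hρ ▸ C.isForm ρ) _ _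
    rw [h3, h4] at h1
    have h5 := form_ne C hC ρ hρ ![0, 1]
    apply mul_right_cancel₀ h5
    linear_combination h2 - h1

theorem deg_orth (hspan : RaysSpan F k) (C : Curve F k) (hC : C.VeryFree) (m : Fin n → ℤ)
    (hm : ∀ ρ, C.deg ρ ≠ 0 → ∑ i, m i * F.ray ρ i = 0) : m = 0 := by
  classical
  refine int_zero k (fun m => ∀ ρ, C.deg ρ ≠ 0 → ∑ i, m i * F.ray ρ i = 0) ?_ ?_ m hm
  · intro d m hd hm ρ hρ
    have h1 := hm ρ hρ
    simp only [mul_assoc] at h1
    rw [← Finset.mul_sum] at h1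
    exact (mul_eq_zero.1 h1).resolve_left hd
  · intro m hm i
    have := eq_zero_of_orth hspan (fun i => (m i : k)) (by
      intro ρ
      by_cases hρ : C.deg ρ = 0
      · obtain ⟨g, hg, hgc⟩ := exists_lie C hC (Pi.single ρ 1)
        have h1 : ∑ ρ', g ρ' * (∑ i, (m i : k) * (F.ray ρ' i : k)) = 0 := by
          simp only [Finset.mul_sum]
          rw [Finset.sum_comm]
          apply Finset.sum_eq_zero
          intro i _
          have : ∑ ρ', g ρ' * ((m i : k) * (F.ray ρ' i : k)) =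
              (m i : k) * ∑ ρ', g ρ' * (F.ray ρ' i : k) := by
            rw [Finset.mul_sum]
            exact Finset.sum_congr rfl fun _ _ => by ring
          rw [this, hg, mul_zero]
        rw [Finset.sum_eq_single ρ] at h1
        · rwa [hgc ρ hρ, Pi.single_eq_same, one_mul] at h1
        · intro ρ' _ hne
          by_cases h2 : C.deg ρ' = 0
          · rw [hgc ρ' h2, Pi.single_eq_of_ne hne, zero_mul]
          · have h3 := congrArg (fun z : ℤ => (z : k)) (hm ρ' h2)
            have h4 : ∑ i, (m i : k) * (F.ray ρ' i : k) = 0 := by simpa using h3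
            rw [h4, mul_zero]
        · simp
      · have h3 := congrArg (fun z : ℤ => (z : k)) (hm ρ hρ)
        simpa using h3)
    exact congrFun this i

theorem exists_rat (hspan : RaysSpan F k) (C : Curve F k) (hC : C.VeryFree) :
    ∃ x : Fin r → ℚ, (∀ i, ∑ ρ, x ρ * F.ray ρ i = 0) ∧ ∀ ρ, C.deg ρ = 0 → x ρ = 1 := by
  classical
  let B : (Fin r → ℚ) →ₗ[ℚ] (Fin n → ℚ) × (Fin r → ℚ) :=
    { toFun := fun x => (fun i => ∑ ρ, x ρ * F.ray ρ i, fun ρ => if C.deg ρ = 0 then x ρ else 0)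
      map_add' := fun x y => by
        ext i
        · simp [add_mul, Finset.sum_add_distrib]
        · simp only [Pi.add_apply, Prod.snd_add]
          split_ifs <;> simp
      map_smul' := fun c x => by
        ext i
        · simp [Finset.mul_sum, mul_assoc]
        · simp only [Pi.smul_apply, smul_eq_mul, RingHom.id_apply, Prod.smul_mk]
          split_ifs <;> simp }
  by_cases hmem : ((0 : Fin n → ℚ), fun ρ : Fin r => if C.deg ρ = 0 then (1 : ℚ) else 0) ∈
      LinearMap.range B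
  · obtain ⟨x, hx⟩ := hmem
    refine ⟨x, fun i => ?_, fun ρ hρ => ?_⟩
    · exact congrFun (congrArg Prod.fst hx) i
    · have := congrFun (congrArg Prod.snd hx) ρ
      change (if C.deg ρ = 0 then x ρ else 0) = (if C.deg ρ = 0 then (1 : ℚ) else 0) at this
      rwa [if_pos hρ, if_pos hρ] at this
  · exfalso
    obtain ⟨f, hf, hker⟩ := Submodule.exists_le_ker_of_notMem hmem
    set μ : Fin n → ℚ := fun i => f (Pi.single i 1, 0) with hμ
    set ω : Fin r → ℚ := fun ρ => f (0, Pi.single ρ 1) with hω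
    have hfe : ∀ (y : Fin n → ℚ) (c : Fin r → ℚ), f (y, c) = ∑ i, y i * μ i + ∑ ρ, c ρ * ω ρ := by
      intro y c
      have h1 : ((y, c) : (Fin n → ℚ) × (Fin r → ℚ)) =
          ∑ i, y i • ((Pi.single i 1, 0) : (Fin n → ℚ) × (Fin r → ℚ)) +
          ∑ ρ, c ρ • ((0, Pi.single ρ 1) : (Fin n → ℚ) × (Fin r → ℚ)) := by
        ext j
        · simp [Prod.fst_sum, Finset.sum_apply, Pi.single_apply]
        · simp [Prod.snd_sum, Finset.sum_apply, Pi.single_apply]
      rw [h1, map_add, map_sum, map_sum]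
      congr 1
      · exact Finset.sum_congr rfl fun i _ => by rw [map_smul, smul_eq_mul]
      · exact Finset.sum_congr rfl fun i _ => by rw [map_smul, smul_eq_mul]
    have hrel : ∀ ρ, ∑ i, (F.ray ρ i : ℚ) * μ i + (if C.deg ρ = 0 then ω ρ else 0) = 0 := by
      intro ρ
      have h1 : f (B (Pi.single ρ 1)) = 0 := hker ⟨_, rfl⟩
      change f ((fun i => ∑ ρ', (Pi.single ρ (1 : ℚ) : Fin r → ℚ) ρ' * F.ray ρ' i),
        fun ρ' => if C.deg ρ' = 0 then (Pi.single ρ (1 : ℚ) : Fin r → ℚ) ρ' else 0) = 0 at h1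
      rw [hfe] at h1
      refine Eq.trans ?_ h1
      congr 1
      · refine Finset.sum_congr rfl fun i _ => ?_
        congr 1
        rw [Finset.sum_eq_single ρ]
        · simp
        · intro ρ' _ hne
          simp [hne]
        · simp
      · rw [Finset.sum_eq_single ρ]
        · split_ifs <;> simp
        · intro ρ' _ hne
          simp [hne]
        · simp
    obtain ⟨⟨N, hN⟩, hint⟩ := IsLocalization.exist_integer_multiples (nonZeroDivisors ℤ)
      Finset.univ μ
    have hN0 : N ≠ 0 := nonZeroDivisors.ne_zero hN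
    have hint' : ∀ i, ∃ z : ℤ, (z : ℚ) = N * μ i := by
      intro i
      obtain ⟨z, hz⟩ := hint i (Finset.mem_univ i)
      refine ⟨z, ?_⟩
      simpa [Algebra.smul_def] using hz
    choose m hm using hint'
    have hm0 : m = 0 := by
      apply deg_orth hspan C hC
      intro ρ hρ
      have h1 := hrel ρ
      rw [if_neg hρ, add_zero] at h1
      have h2 : ((∑ i, m i * F.ray ρ i : ℤ) : ℚ) = 0 := by
        push_cast
        calc ∑ i, (m i : ℚ) * F.ray ρ i = N * ∑ i, (F.ray ρ i : ℚ) * μ i := by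
              rw [Finset.mul_sum]
              exact Finset.sum_congr rfl fun i _ => by rw [hm]; ring
          _ = 0 := by rw [h1, mul_zero]
      exact_mod_cast h2
    have hμ0 : ∀ i, μ i = 0 := by
      intro i
      have h1 := hm i
      rw [hm0] at h1
      have h2 : (N : ℚ) * μ i = 0 := by simpa using h1.symm
      exact (mul_eq_zero.1 h2).resolve_left (by exact_mod_cast hN0)
    apply hf
    rw [hfe]
    have h3 : ∀ ρ, (if C.deg ρ = 0 then (1 : ℚ) else 0) * ω ρ = 0 := by
      intro ρ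
      have h1 := hrel ρ
      simp only [hμ0, mul_zero, Finset.sum_const_zero, zero_add] at h1
      split_ifs with hρ
      · rw [if_pos hρ] at h1
        rw [h1, mul_zero]
      · rw [zero_mul]
    simp only [h3, Finset.sum_const_zero, add_zero, Pi.zero_apply, zero_mul]

/-- **Positive relation.** -/
theorem exists_pos (hspan : RaysSpan F k) (C : Curve F k) (hC : C.VeryFree) :
    ∃ e : Fin r → ℤ, (∀ ρ, 0 < e ρ) ∧ ∀ i, ∑ ρ, e ρ * F.ray ρ i = 0 := by
  classical
  obtain ⟨x, hx, hx1⟩ := exists_rat hspan C hC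
  obtain ⟨⟨N, hN⟩, hint⟩ := IsLocalization.exist_integer_multiples (nonZeroDivisors ℤ)
    Finset.univ x
  have hN0 : N ≠ 0 := nonZeroDivisors.ne_zero hN
  have hint' : ∀ ρ, ∃ z : ℤ, (z : ℚ) = N * x ρ := by
    intro ρ
    obtain ⟨z, hz⟩ := hint ρ (Finset.mem_univ ρ)
    refine ⟨z, ?_⟩
    simpa [Algebra.smul_def] using hz
  choose z hz using hint'
  have hbal : ∀ i, ∑ ρ, C.deg ρ * F.ray ρ i = 0 := by
    intro i
    have := congrFun C.balanced i
    simpa using this
  have hzb : ∀ i, ∑ ρ, z ρ * F.ray ρ i = 0 := by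
    intro i
    have h2 : ((∑ ρ, z ρ * F.ray ρ i : ℤ) : ℚ) = 0 := by
      push_cast
      calc ∑ ρ, (z ρ : ℚ) * F.ray ρ i = N * ∑ ρ, x ρ * F.ray ρ i := by
            rw [Finset.mul_sum]
            exact Finset.sum_congr rfl fun i _ => by rw [hz]; ring
        _ = 0 := by rw [hx, mul_zero]
    exact_mod_cast h2
  refine ⟨fun ρ => N * z ρ + (1 + ∑ ρ', |N * z ρ'|) * C.deg ρ, ?_, ?_⟩
  · intro ρ
    simp only
    by_cases hρ : C.deg ρ = 0
    · have h1 : z ρ = N := by
        have := hz ρ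
        rw [hx1 ρ hρ, mul_one] at this
        exact_mod_cast this
      rw [hρ, mul_zero, add_zero, h1]
      exact mul_self_pos.2 hN0
    · have h1 : 1 ≤ C.deg ρ := by
        have := deg_nonneg C hC ρ
        omega
      have h2 : |N * z ρ| ≤ ∑ ρ', |N * z ρ'| :=
        Finset.single_le_sum (f := fun ρ' => |N * z ρ'|) (fun _ _ => abs_nonneg _)
          (Finset.mem_univ ρ)
      have h3 : -|N * z ρ| ≤ N * z ρ := neg_abs_le _
      have h4 : 0 ≤ ∑ ρ', |N * z ρ'| := Finset.sum_nonneg fun _ _ => abs_nonneg _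
      nlinarith
  · intro i
    simp only [add_mul, Finset.sum_add_distrib]
    have h1 : ∑ ρ, N * z ρ * F.ray ρ i = N * ∑ ρ, z ρ * F.ray ρ i := by
      rw [Finset.mul_sum]
      exact Finset.sum_congr rfl fun _ _ => by ring
    have h2 : ∑ ρ, (1 + ∑ ρ', |N * z ρ'|) * C.deg ρ * F.ray ρ i =
        (1 + ∑ ρ', |N * z ρ'|) * ∑ ρ, C.deg ρ * F.ray ρ i := by
      rw [Finset.mul_sum]
      exact Finset.sum_congr rfl fun _ _ => by ring
    rw [h1, hzb, mul_zero]
    simp only [add_mul] at h2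
    rw [Finset.sum_add_distrib] at h2
    rw [hbal, mul_zero, mul_zero, add_zero] at h2
    linarith

end Pool.Agent.ToricCurves
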