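import Mathlib

/-!
# Nakayama's lemma for certificates in `R[X]`, `R` a local ring
-/

namespace Pool.Agent.Lib_MP_1858fb.SP

open Polynomial IsLocalRing

/-- If the reductions of the members of `S ⊆ R[X]` generate the unit ideal of `κ[X]` and a member
of `S` has a unit as leading coefficient, then `S` generates the unit ideal of `R[X]`. -/
theorem span_eq_top_of_residue {R : Type*} [CommRing R] [IsLocalRing R] (S : Set R[X])
    {P : R[X]} (hPS : P ∈ S) (hP : IsUnit P.leadingCoeff)
    (h : Ideal.span ((Polynomial.mapRingHom (residue R)) '' S) = ⊤) : Ideal.span S = ⊤ := by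
  set I := Ideal.span S with hI
  have hPI : P ∈ I := Ideal.subset_span hPS
  obtain ⟨b, hb⟩ := hP.exists_left_inv
  have hmon : (C b * P).Monic := monic_C_mul_of_mul_leadingCoeff_eq_one hb
  have hle : Ideal.span {C b * P} ≤ I := by
    rw [Ideal.span_singleton_le_iff_mem]
    exact I.mul_mem_left _ hPI
  have hfin : Module.Finite R (R[X] ⧸ I) := by
    have := hmon.finite_quotient
    let g : (R[X] ⧸ Ideal.span {C b * P}) →ₐ[R] (R[X] ⧸ I) :=
      Ideal.Quotient.factorₐ R hle
    exact Module.Finite.of_surjective g.toLinearMap (Ideal.Quotient.factor_surjective hle)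
  have hsup : I ⊔ Ideal.map C (maximalIdeal R) = ⊤ := by
    have hsurj : Function.Surjective (Polynomial.mapRingHom (residue R)) :=
      Polynomial.map_surjective _ residue_surjective
    have h1 := Ideal.comap_map_of_surjective (Polynomial.mapRingHom (residue R)) hsurj I
    rw [hI, Ideal.map_span, h, Ideal.comap_top] at h1
    have h2 : Ideal.comap (Polynomial.mapRingHom (residue R)) ⊥ =
        Ideal.map C (maximalIdeal R) := by
      change RingHom.ker (Polynomial.mapRingHom (residue R)) = _
      rw [ker_mapRingHom, ker_residue]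
    rw [h2] at h1
    exact h1.symm
  have hmk : ∀ g ∈ Ideal.map C (maximalIdeal R),
      (Ideal.Quotient.mk I g) ∈ (maximalIdeal R) • (⊤ : Submodule R (R[X] ⧸ I)) := by
    intro g hg
    rw [Ideal.mem_map_C_iff] at hg
    rw [g.as_sum_range_C_mul_X_pow, map_sum]
    refine Submodule.sum_mem _ fun i _ => ?_
    have : Ideal.Quotient.mk I (C (g.coeff i) * X ^ i) =
        g.coeff i • Ideal.Quotient.mk I (X ^ i) := by
      rw [← Polynomial.smul_eq_C_mul]
      rfl
    rw [this]
    exact Submodule.smul_mem_smul (hg i) Submodule.mem_top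
  have htop : (⊤ : Submodule R (R[X] ⧸ I)) ≤ (maximalIdeal R) • ⊤ := by
    intro q _
    obtain ⟨f, rfl⟩ := Ideal.Quotient.mk_surjective q
    have h1 : (1 : R[X]) ∈ I ⊔ Ideal.map C (maximalIdeal R) := by rw [hsup]; trivial
    obtain ⟨a, ha, g, hg, hag⟩ := Submodule.mem_sup.mp h1
    have h2 : Ideal.Quotient.mk I f = Ideal.Quotient.mk I (f * g) := by
      rw [Ideal.Quotient.eq]
      have : f - f * g = f * a := by
        have : f = f * (a + g) := by rw [hag, mul_one]
        linear_combination this
      rw [this]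
      exact I.mul_mem_left _ ha
    rw [h2]
    exact hmk _ (Ideal.mul_mem_left _ _ hg)
  have hbot : (⊤ : Submodule R (R[X] ⧸ I)) = ⊥ :=
    Submodule.eq_bot_of_le_smul_of_le_jacobson_bot (maximalIdeal R) ⊤ hfin.fg_top htop
      (by rw [jacobson_eq_maximalIdeal ⊥ bot_ne_top])
  rw [Ideal.eq_top_iff_one, ← Ideal.Quotient.eq_zero_iff_mem]
  have : Ideal.Quotient.mk I 1 ∈ (⊤ : Submodule R (R[X] ⧸ I)) := trivial
  rwa [hbot, Submodule.mem_bot] at this

/-- The same over an algebraically closed residue field: the degrees are at most `D`, the reductions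
have no common zero, and a coefficient of `X ^ D` is a unit. -/
theorem span_eq_top_of_no_common_root {R κ : Type*} [CommRing R] [IsLocalRing R] [Field κ]
    [IsAlgClosed κ] (π : R →+* κ) (hπ : Function.Surjective π) (S : Set R[X]) (D : ℕ)
    (hD : ∀ M ∈ S, M.natDegree ≤ D) (htop : ∃ M ∈ S, π (M.coeff D) ≠ 0)
    (hroot : ∀ x : κ, ∃ M ∈ S, (M.map π).eval x ≠ 0) : Ideal.span S = ⊤ := by
  classical
  -- the kernel of `π` is the maximal ideal
  have hker : RingHom.ker π = maximalIdeal R := by
    have := RingHom.ker_isMaximal_of_surjective π hπ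
    exact eq_maximalIdeal this
  have hunit : ∀ r : R, π r ≠ 0 → IsUnit r := by
    intro r hr
    by_contra h
    have : r ∈ maximalIdeal R := h
    rw [← hker, RingHom.mem_ker] at this
    exact hr this
  obtain ⟨P, hPS, hP⟩ := htop
  have hPlead : IsUnit P.leadingCoeff := by
    have hne : P.coeff D ≠ 0 := fun h => hP (by rw [h, map_zero])
    have : P.natDegree = D := le_antisymm (hD P hPS) (le_natDegree_of_ne_zero hne)
    rw [leadingCoeff, this]
    exact hunit _ hP
  -- the residue field is `κ`
  let e : ResidueField R ≃+* κ :=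
    (Ideal.quotEquivOfEq hker.symm).trans (RingHom.quotientKerEquivOfSurjective hπ)
  have he : ∀ r, e (residue R r) = π r := fun r => rfl
  refine span_eq_top_of_residue S hPS hPlead ?_
  by_contra hne
  obtain ⟨J, hJ, hSJ⟩ := Ideal.exists_le_maximal _ hne
  -- transport to `κ[X]`
  let E : (ResidueField R)[X] ≃+* κ[X] := Polynomial.mapEquiv e
  have hJ' : (Ideal.comap (E.symm : κ[X] →+* (ResidueField R)[X]) J).IsMaximal :=
    Ideal.comap_isMaximal_of_surjective _ E.symm.surjective
  set J' := Ideal.comap (E.symm : κ[X] →+* (ResidueField R)[X]) J with hJ'def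
  have hS' : ∀ M ∈ S, M.map π ∈ J' := by
    intro M hM
    rw [hJ'def, Ideal.mem_comap]
    have h1 : (E.symm : κ[X] →+* (ResidueField R)[X]) (M.map π) = M.map (residue R) := by
      change E.symm (M.map π) = _
      rw [RingEquiv.symm_apply_eq]
      change M.map π = (M.map (residue R)).map (e : ResidueField R →+* κ)
      rw [Polynomial.map_map]
      congr 1
    rw [h1]
    exact hSJ (Ideal.subset_span ⟨M, hM, rfl⟩)
  -- a generator of `J'` has a root
  obtain ⟨g, hg⟩ := (IsPrincipalIdealRing.principal J').principal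
  have hg' : J' = Ideal.span {g} := hg
  have hg0 : g.degree ≠ 0 := by
    intro h
    apply hJ'.ne_top
    rw [hg']
    exact Ideal.span_singleton_eq_top.mpr (isUnit_iff_degree_eq_zero.mpr h)
  obtain ⟨x, hx⟩ := IsAlgClosed.exists_root g hg0
  obtain ⟨M, hM, hMx⟩ := hroot x
  have h2 := hS' M hM
  rw [hg', Ideal.mem_span_singleton] at h2
  obtain ⟨q, hq⟩ := h2
  apply hMx
  rw [hq, eval_mul, hx.eq_zero, zero_mul]

end Pool.Agent.Lib_MP_1858fb.SP
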