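import Mathlib

/-!
# The key divisibility: a common factor of `F - μ w` divides the determinants of derivatives
-/

namespace Pool.Agent.Lib_MP_1858fb.SP

/-- the determinant of three vectors at three coordinates -/
def det3 {A ι : Type*} [CommRing A] (x y z : ι → A) (a b c : ι) : A :=
  x a * (y b * z c - y c * z b) - x b * (y a * z c - y c * z a) + x c * (y a * z b - y b * z a)

/-- Let `D₁, D₂` be derivations of `A`, `D_j w = 0`. If `r (F - μ w) = p H`, then `p` divides
`r ^ 3 det (F, D₁ F, D₂ F)`. -/
theorem dvd_det3 {A ι : Type*} [CommRing A] (D₁ D₂ : Derivation ℤ A A) (F w H : ι → A)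
    (r p μ : A) (h₁ : ∀ a, D₁ (w a) = 0) (h₂ : ∀ a, D₂ (w a) = 0)
    (hF : ∀ a, r * (F a - μ * w a) = p * H a) (a b c : ι) :
    p ∣ r ^ 3 * det3 F (fun i => D₁ (F i)) (fun i => D₂ (F i)) a b c := by
  have e0 : ∀ i, r * F i = r * μ * w i + p * H i := fun i => by
    linear_combination hF i
  have e1 : ∀ i, r * D₁ (F i) + D₁ r * F i = D₁ (r * μ) * w i + D₁ p * H i + p * D₁ (H i) := by
    intro i
    have := congrArg D₁ (e0 i)
    rw [Derivation.leibniz, map_add, Derivation.leibniz D₁ (r * μ) (w i), Derivation.leibniz D₁ p,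
      h₁ i, smul_zero] at this
    simp only [smul_eq_mul] at this
    linear_combination this
  have e2 : ∀ i, r * D₂ (F i) + D₂ r * F i = D₂ (r * μ) * w i + D₂ p * H i + p * D₂ (H i) := by
    intro i
    have := congrArg D₂ (e0 i)
    rw [Derivation.leibniz, map_add, Derivation.leibniz D₂ (r * μ) (w i), Derivation.leibniz D₂ p,
      h₂ i, smul_zero] at this
    simp only [smul_eq_mul] at this
    linear_combination this
  have key : r ^ 3 * det3 F (fun i => D₁ (F i)) (fun i => D₂ (F i)) a b c =
      det3 (fun i => r * F i) (fun i => r * D₁ (F i) + D₁ r * F i)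
        (fun i => r * D₂ (F i) + D₂ r * F i) a b c := by
    unfold det3
    ring
  rw [key]
  simp only [det3, e0, e1, e2]
  rw [← Ideal.mem_span_singleton, ← Ideal.Quotient.eq_zero_iff_mem]
  have hp : Ideal.Quotient.mk (Ideal.span {p}) p = 0 :=
    Ideal.Quotient.eq_zero_iff_mem.mpr (Ideal.mem_span_singleton_self p)
  simp only [map_add, map_sub, map_mul, hp]
  ring

end Pool.Agent.Lib_MP_1858fb.SP
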