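import Pool.Agent.Lib_MP_1858fb.SPB

/-!
# The quotients `(F - μ v) / (X - c)` have no common factor over the fraction field
-/

namespace Pool.Agent.Lib_MP_1858fb.SP

open Polynomial

/-- clearing the denominators of a polynomial -/
theorem exists_integral_mul {R K : Type*} [CommRing R] [IsDomain R] [Field K] [Algebra R K]
    [IsFractionRing R K] (h : K[X]) :
    ∃ s : R, s ≠ 0 ∧ ∃ H : R[X], H.map (algebraMap R K) = C (algebraMap R K s) * h := by
  obtain ⟨b, hb, hb'⟩ := IsLocalization.integerNormalization_spec (nonZeroDivisors R) h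
  refine ⟨b, nonZeroDivisors.ne_zero hb, _, hb'.trans ?_⟩
  ext n
  rw [coeff_smul, coeff_C_mul, Algebra.smul_def]

variable {R K ι J L : Type*} [CommRing R] [IsDomain R] [Field K] [Algebra R K]
  [IsFractionRing R K]

/-- Let `F` be a vector of polynomials over `R`, and suppose that the determinants of
`F, D_j F, D_k F` are `Π ^ 2` times polynomials `M` which generate the unit ideal. Then the quotients
`q = (F - F_{a₀} w) / (X - c i)` generate the unit ideal over the fraction field, if `w` is not
proportional to `F (c l)`, `l ≠ i`, and to the derivative of `F` at `c i`. Nothing is assumed about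
the factors `F_{a₀} (c l)`. -/
theorem span_quot_eq_top' [Fintype ι] [Fintype L] (D : J → Derivation ℤ R[X] R[X])
    (F : ι → R[X]) (c : L → R) (w : ι → R) (i : L) (a₀ : ι)
    (hD : ∀ j a, D j (C (w a)) = 0)
    (hne : ∀ l, l ≠ i → ∃ a, (F a).eval (c l) ≠ (F a₀).eval (c l) * w a)
    (hder : ∃ a, (derivative (F a)).eval (c i) ≠ (derivative (F a₀)).eval (c i) * w a)
    (M : ι → ι → ι → J → J → R[X])
    (hM : ∀ a b d j k, det3 F (fun x => D j (F x)) (fun x => D k (F x)) a b d =
      (∏ l, (X - C (c l))) ^ 2 * M a b d j k)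
    (hspan : Ideal.span {p | ∃ a b d j k, p = M a b d j k} = ⊤) (q : ι → R[X])
    (hq : ∀ a, F a - F a₀ * C (w a) = (X - C (c i)) * q a) :
    Ideal.span (Set.range fun a => (q a).map (algebraMap R K)) = ⊤ := by
  classical
  have hinj : Function.Injective (algebraMap R K) := IsFractionRing.injective R K
  have hinjX : Function.Injective (Polynomial.map (algebraMap R K)) :=
    Polynomial.map_injective _ hinj
  by_contra hcon
  obtain ⟨J₀, hJ₀, hle⟩ := Ideal.exists_le_maximal _ hcon
  obtain ⟨p₀, hp₀⟩ := (IsPrincipalIdealRing.principal J₀).principal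
  have hp₀' : J₀ = Ideal.span {p₀} := hp₀
  have hp0 : p₀ ≠ 0 := by
    rintro rfl
    rw [Ideal.span_singleton_eq_bot.mpr rfl] at hp₀'
    rw [hp₀'] at hJ₀
    exact Polynomial.not_isField K (Ring.isField_iff_maximal_bot.mpr hJ₀)
  have hprime : Prime p₀ := by
    rw [← Ideal.span_singleton_prime hp0, ← hp₀']
    exact hJ₀.isPrime
  have hdvd : ∀ a, p₀ ∣ (q a).map (algebraMap R K) := by
    intro a
    rw [← Ideal.mem_span_singleton, ← hp₀']
    exact hle (Ideal.subset_span ⟨a, rfl⟩)
  -- clear the denominators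
  choose h hh using hdvd
  obtain ⟨s, hs, p, hp⟩ := exists_integral_mul (R := R) p₀
  choose t ht H hH using fun a => exists_integral_mul (R := R) (h a)
  have hr : ∀ a, C (s * ∏ b, t b) * q a = p * (C (∏ b ∈ Finset.univ.erase a, t b) * H a) := by
    intro a
    apply hinjX
    rw [Polynomial.map_mul, Polynomial.map_mul, Polynomial.map_mul, Polynomial.map_C,
      Polynomial.map_C, hp, hH, hh a, ← Finset.mul_prod_erase _ _ (Finset.mem_univ a)]
    simp only [map_mul]
    ring
  set r : R := s * ∏ b, t b with hrdef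
  have hr0 : r ≠ 0 := mul_ne_zero hs (Finset.prod_ne_zero_iff.mpr fun b _ => ht b)
  -- a member `M` of the family not divisible by `p₀`
  have hMex : ∃ a b d j k, ¬ p₀ ∣ (M a b d j k).map (algebraMap R K) := by
    by_contra hc
    push Not at hc
    have h1 : Ideal.span {p | ∃ a b d j k, p = M a b d j k} ≤
        Ideal.comap (Polynomial.mapRingHom (algebraMap R K)) (Ideal.span {p₀}) := by
      rw [Ideal.span_le]
      rintro _ ⟨a, b, d, j, k, rfl⟩
      rw [SetLike.mem_coe, Ideal.mem_comap, Ideal.mem_span_singleton]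
      exact hc a b d j k
    rw [hspan, top_le_iff] at h1
    have h2 : (1 : R[X]) ∈ Ideal.comap (Polynomial.mapRingHom (algebraMap R K))
        (Ideal.span {p₀}) := by rw [h1]; trivial
    rw [Ideal.mem_comap, map_one, Ideal.mem_span_singleton] at h2
    exact hprime.not_isUnit (isUnit_of_dvd_one h2)
  obtain ⟨a, b, d, j, k, hMn⟩ := hMex
  have h3 : p ∣ (C r) ^ 3 * det3 F (fun x => D j (F x)) (fun x => D k (F x)) a b d := by
    refine dvd_det3 (D j) (D k) F (fun x => C (w x))
      (fun x => (X - C (c i)) * (C (∏ b ∈ Finset.univ.erase x, t b) * H x)) (C r) p (F a₀)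
      (hD j) (hD k) (fun x => ?_) a b d
    rw [hq x]
    linear_combination (X - C (c i)) * hr x
  rw [hM] at h3
  have h4 := Polynomial.map_dvd (algebraMap R K) h3
  rw [hp, Polynomial.map_mul, Polynomial.map_mul, Polynomial.map_pow, Polynomial.map_pow,
    Polynomial.map_C] at h4
  have h5 : p₀ ∣ C (algebraMap R K r) ^ 3 *
      (((∏ l, (X - C (c l))).map (algebraMap R K)) ^ 2 * (M a b d j k).map (algebraMap R K)) :=
    (Dvd.intro_left _ rfl).trans h4
  have hCr : IsUnit (C (algebraMap R K r) : K[X]) :=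
    isUnit_C.mpr (isUnit_iff_ne_zero.mpr fun h => hr0 (hinj (h.trans (map_zero _).symm)))
  have h6 : p₀ ∣ (∏ l, (X - C (c l))).map (algebraMap R K) := by
    rcases hprime.dvd_or_dvd h5 with h | h
    · exact absurd (isUnit_of_dvd_unit h (hCr.pow 3)) hprime.not_isUnit
    · rcases hprime.dvd_or_dvd h with h | h
      · exact hprime.dvd_of_dvd_pow h
      · exact absurd h hMn
  rw [Polynomial.map_prod] at h6
  obtain ⟨l, -, hl⟩ := (Prime.dvd_finsetProd_iff hprime _).mp h6
  rw [Polynomial.map_sub, Polynomial.map_X, Polynomial.map_C] at hl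
  have hass : Associated p₀ (X - C (algebraMap R K (c l))) :=
    hprime.irreducible.associated_of_dvd (irreducible_X_sub_C _) hl
  have hroot : ∀ x, (q x).eval (c l) = 0 := by
    intro x
    have h7 : X - C (algebraMap R K (c l)) ∣ (q x).map (algebraMap R K) :=
      hass.symm.dvd.trans (Dvd.intro _ (hh x).symm)
    rw [dvd_iff_isRoot, IsRoot, eval_map, eval₂_at_apply] at h7
    exact hinj (h7.trans (map_zero _).symm)
  by_cases hli : l = i
  · subst hli
    obtain ⟨x, hx⟩ := hder
    apply hx
    have h8 := congrArg (fun f => (derivative f).eval (c l)) (hq x)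
    simp only [derivative_sub, derivative_mul, derivative_C, derivative_X, mul_zero, add_zero,
      sub_zero, one_mul, eval_sub, eval_mul, eval_add, eval_C, eval_X, sub_self, zero_mul,
      hroot x] at h8
    linear_combination h8
  · obtain ⟨x, hx⟩ := hne l hli
    apply hx
    have h8 := congrArg (fun f => f.eval (c l)) (hq x)
    simp only [eval_sub, eval_mul, eval_C, hroot x, mul_zero] at h8
    linear_combination h8

/-- The same with `F (c l) = v l`. -/
theorem span_quot_eq_top [Fintype ι] [Fintype L] (D : J → Derivation ℤ R[X] R[X])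
    (F : ι → R[X]) (c : L → R) (v : L → ι → R) (i : L) (a₀ : ι)
    (hD : ∀ j a, D j (C (v i a)) = 0) (hFc : ∀ l a, (F a).eval (c l) = v l a)
    (hne : ∀ l, l ≠ i → ∃ a, v l a ≠ v l a₀ * v i a)
    (hder : ∃ a, (derivative (F a)).eval (c i) ≠ (derivative (F a₀)).eval (c i) * v i a)
    (M : ι → ι → ι → J → J → R[X])
    (hM : ∀ a b d j k, det3 F (fun x => D j (F x)) (fun x => D k (F x)) a b d =
      (∏ l, (X - C (c l))) ^ 2 * M a b d j k)
    (hspan : Ideal.span {p | ∃ a b d j k, p = M a b d j k} = ⊤) (q : ι → R[X])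
    (hq : ∀ a, F a - F a₀ * C (v i a) = (X - C (c i)) * q a) :
    Ideal.span (Set.range fun a => (q a).map (algebraMap R K)) = ⊤ :=
  span_quot_eq_top' D F c (v i) i a₀ hD
    (fun l hl => by
      obtain ⟨a, ha⟩ := hne l hl
      exact ⟨a, by rwa [hFc, hFc]⟩) hder M hM hspan q hq

end Pool.Agent.Lib_MP_1858fb.SP
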