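import Pool.Agent.Lib_MP_1858fb.SPA
import Pool.Agent.Lib_MP_1858fb.SPB

/-!
# Partial derivatives of families over a power series ring
-/

namespace Pool.Agent.Lib_MP_1858fb.SP

open Polynomial

section mapDer

variable {R A : Type*} [CommRing R] [CommRing A] [Algebra R A]

/-- a derivation of `A` extended coefficientwise to `A[X]` -/
noncomputable def mapDer (d : Derivation R A A) : Derivation R A[X] A[X] :=
  PolynomialModule.equivPolynomialSelf.compDer d.mapCoeffs

@[simp]
theorem coeff_mapDer (d : Derivation R A A) (p : A[X]) (i : ℕ) :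
    (mapDer d p).coeff i = d (p.coeff i) := rfl

theorem mapDer_C (d : Derivation R A A) (x : A) : mapDer d (C x) = C (d x) := by
  ext n
  rw [coeff_mapDer, coeff_C, coeff_C]
  split_ifs
  · rfl
  · exact map_zero d

theorem mapDer_of_const (d : Derivation R A A) {p : A[X]} (h : ∀ n, d (p.coeff n) = 0) :
    mapDer d p = 0 := by
  ext n
  rw [coeff_mapDer, h, coeff_zero]

theorem mapDer_map (d : Derivation R A A) (p : R[X]) : mapDer d (p.map (algebraMap R A)) = 0 :=
  mapDer_of_const d fun n => by rw [coeff_map, Derivation.map_algebraMap]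

theorem mapDer_mul_map (d : Derivation R A A) (p : R[X]) (q : A[X]) :
    mapDer d (p.map (algebraMap R A) * q) = p.map (algebraMap R A) * mapDer d q := by
  rw [Derivation.leibniz, mapDer_map, smul_zero, add_zero, smul_eq_mul]

theorem natDegree_mapDer_le (d : Derivation R A A) {p : A[X]} {D : ℕ} (h : p.natDegree ≤ D) :
    (mapDer d p).natDegree ≤ D := by
  rw [natDegree_le_iff_coeff_eq_zero] at h ⊢
  intro n hn
  rw [coeff_mapDer, h n hn, map_zero]

theorem derivative_mapDer (d : Derivation R A A) (p : A[X]) :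
    derivative (mapDer d p) = mapDer d (derivative p) := by
  ext n
  rw [coeff_derivative, coeff_mapDer, coeff_mapDer, coeff_derivative, Derivation.leibniz,
    smul_eq_mul, smul_eq_mul]
  have : d ((n : A) + 1) = 0 := by
    rw [map_add, Derivation.map_one_eq_zero, Derivation.map_natCast, add_zero]
  rw [this]
  ring

theorem eval_mapDer (d : Derivation R A A) {c : A} (hc : d c = 0) (p : A[X]) :
    (mapDer d p).eval c = d (p.eval c) := by
  rw [eval_eq_sum_range' (lt_of_le_of_lt (natDegree_mapDer_le d le_rfl) (Nat.lt_succ_self _)),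
    eval_eq_sum_range, map_sum]
  refine Finset.sum_congr rfl fun i _ => ?_
  rw [coeff_mapDer, Derivation.leibniz, Derivation.leibniz_pow, hc]
  simp only [smul_eq_mul]
  ring

end mapDer

/-! ### `det3` -/

section det3

variable {A B ι : Type*} [CommRing A] [CommRing B]

theorem det3_map (f : A →+* B) (x y z : ι → A) (a b c : ι) :
    f (det3 x y z a b c) = det3 (fun i => f (x i)) (fun i => f (y i)) (fun i => f (z i)) a b c := by
  simp only [det3, map_add, map_sub, map_mul]

theorem det3_eval (t : A) (x y z : ι → A[X]) (a b c : ι) :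
    (det3 x y z a b c).eval t =
      det3 (fun i => (x i).eval t) (fun i => (y i).eval t) (fun i => (z i).eval t) a b c := by
  simp only [det3, eval_add, eval_sub, eval_mul]

theorem det3_natDegree_le {x y z : ι → A[X]} {p q r : ℕ} (hx : ∀ i, (x i).natDegree ≤ p)
    (hy : ∀ i, (y i).natDegree ≤ q) (hz : ∀ i, (z i).natDegree ≤ r) (a b c : ι) :
    (det3 x y z a b c).natDegree ≤ p + (q + r) := by
  have h : ∀ i j k, (x i * (y j * z k)).natDegree ≤ p + (q + r) := fun i j k =>
    natDegree_mul_le_of_le (hx i) (natDegree_mul_le_of_le (hy j) (hz k))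
  rw [natDegree_le_iff_coeff_eq_zero]
  intro n hn
  have h' : ∀ i j k, (x i * (y j * z k)).coeff n = 0 := fun i j k =>
    coeff_eq_zero_of_natDegree_lt (lt_of_le_of_lt (h i j k) hn)
  simp only [det3, mul_sub, coeff_add, coeff_sub, h', sub_zero, add_zero]

theorem det3_coeff {x y z : ι → A[X]} {p q r : ℕ} (hx : ∀ i, (x i).natDegree ≤ p)
    (hy : ∀ i, (y i).natDegree ≤ q) (hz : ∀ i, (z i).natDegree ≤ r) (a b c : ι) :
    (det3 x y z a b c).coeff (p + (q + r)) =
      det3 (fun i => (x i).coeff p) (fun i => (y i).coeff q) (fun i => (z i).coeff r) a b c := by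
  have h : ∀ i j k, (x i * (y j * z k)).coeff (p + (q + r)) =
      (x i).coeff p * ((y j).coeff q * (z k).coeff r) := fun i j k => by
    rw [coeff_mul_add_eq_of_natDegree_le (hx i) (natDegree_mul_le_of_le (hy j) (hz k)),
      coeff_mul_add_eq_of_natDegree_le (hy j) (hz k)]
  simp only [det3, mul_sub, coeff_add, coeff_sub, h]

end det3

/-! ### The family over the ring of power series -/

section family

variable {k σ ι : Type*} [Field k]

theorem constantCoeff_pderiv (j : σ) (f : MvPowerSeries σ k) :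
    MvPowerSeries.constantCoeff (MvPowerSeries.pderiv k j f) =
      MvPowerSeries.coeff (Finsupp.single j 1) f := by
  rw [← MvPowerSeries.coeff_zero_eq_constantCoeff_apply, MvPowerSeries.coeff_pderiv, zero_add]
  simp

theorem map_mapDer_pderiv (j : σ) {f : (MvPowerSeries σ k)[X]} {g : k[X]}
    (h : ∀ n, MvPowerSeries.coeff (Finsupp.single j 1) (f.coeff n) = g.coeff n) :
    (mapDer (MvPowerSeries.pderiv k j) f).map (MvPowerSeries.constantCoeff (σ := σ)) = g := by
  ext n
  rw [coeff_map, coeff_mapDer, constantCoeff_pderiv, h]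

theorem map_eq_zero_of_const {f : (MvPowerSeries σ k)[X]}
    (h : ∀ n, MvPowerSeries.constantCoeff (f.coeff n) = 0) :
    f.map (MvPowerSeries.constantCoeff (σ := σ)) = 0 := by
  ext n
  rw [coeff_map, h, coeff_zero]

theorem map_map_const (p : k[X]) :
    (p.map (algebraMap k (MvPowerSeries σ k))).map (MvPowerSeries.constantCoeff (σ := σ)) = p := by
  rw [Polynomial.map_map]
  have : (MvPowerSeries.constantCoeff (σ := σ)).comp (algebraMap k (MvPowerSeries σ k)) =
      RingHom.id k := by
    ext x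
    simp [MvPowerSeries.algebraMap_apply]
  rw [this, Polynomial.map_id]

/-- the family `F₀ + P Δ` -/
noncomputable def fam (F₀ : ι → k[X]) (P : k[X]) (Δ : ι → (MvPowerSeries σ k)[X]) (a : ι) :
    (MvPowerSeries σ k)[X] :=
  (F₀ a).map (algebraMap k (MvPowerSeries σ k)) + P.map (algebraMap k (MvPowerSeries σ k)) * Δ a

theorem mapDer_fam (d : Derivation k (MvPowerSeries σ k) (MvPowerSeries σ k)) (F₀ : ι → k[X])
    (P : k[X]) (Δ : ι → (MvPowerSeries σ k)[X]) (a : ι) :
    mapDer d (fam F₀ P Δ a) = P.map (algebraMap k (MvPowerSeries σ k)) * mapDer d (Δ a) := by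
  rw [fam, map_add, mapDer_map, zero_add, mapDer_mul_map]

/-- the determinants of `F` and two derivatives, divided by `P ^ 2` -/
noncomputable def Mdet (F₀ : ι → k[X]) (P : k[X]) (Δ : ι → (MvPowerSeries σ k)[X]) (a b c : ι)
    (i j : σ) : (MvPowerSeries σ k)[X] :=
  det3 (fam F₀ P Δ) (fun x => mapDer (MvPowerSeries.pderiv k i) (Δ x))
    (fun x => mapDer (MvPowerSeries.pderiv k j) (Δ x)) a b c

theorem det3_fam (F₀ : ι → k[X]) (P : k[X]) (Δ : ι → (MvPowerSeries σ k)[X]) (a b c : ι)
    (i j : σ) :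
    det3 (fam F₀ P Δ) (fun x => mapDer (MvPowerSeries.pderiv k i) (fam F₀ P Δ x))
      (fun x => mapDer (MvPowerSeries.pderiv k j) (fam F₀ P Δ x)) a b c =
      (P.map (algebraMap k (MvPowerSeries σ k))) ^ 2 * Mdet F₀ P Δ a b c i j := by
  simp only [Mdet, mapDer_fam, det3]
  ring

theorem map_Mdet {F₀ : ι → k[X]} {P : k[X]} {Δ : ι → (MvPowerSeries σ k)[X]}
    {δ : σ → ι → k[X]}
    (h0 : ∀ a n, MvPowerSeries.constantCoeff ((Δ a).coeff n) = 0)
    (h1 : ∀ a n j, MvPowerSeries.coeff (Finsupp.single j 1) ((Δ a).coeff n) = (δ j a).coeff n)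
    (a b c : ι) (i j : σ) :
    (Mdet F₀ P Δ a b c i j).map (MvPowerSeries.constantCoeff (σ := σ)) =
      det3 F₀ (δ i) (δ j) a b c := by
  have hF : ∀ x, (fam F₀ P Δ x).map (MvPowerSeries.constantCoeff (σ := σ)) = F₀ x := by
    intro x
    rw [fam, Polynomial.map_add, Polynomial.map_mul, map_map_const, map_map_const,
      map_eq_zero_of_const (h0 x), mul_zero, add_zero]
  rw [Mdet, ← coe_mapRingHom, det3_map]
  simp only [coe_mapRingHom, hF]
  congr 1 <;> funext x
  · exact map_mapDer_pderiv i fun n => h1 x n i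
  · exact map_mapDer_pderiv j fun n => h1 x n j

/-- If `F₀(x), δ_i(x), δ_j(x)` are independent for suitable `i, j`, at every point `x` and at
infinity, then the determinants `Mdet` generate the unit ideal. -/
theorem span_Mdet_eq_top [IsAlgClosed k] {F₀ : ι → k[X]} {P : k[X]}
    {Δ : ι → (MvPowerSeries σ k)[X]} {δ : σ → ι → k[X]} {D m : ℕ}
    (hF₀ : ∀ a, (F₀ a).natDegree ≤ D) (hP : P.natDegree ≤ m) (hm : m ≤ D)
    (hΔ : ∀ a, (Δ a).natDegree ≤ D - m)
    (h0 : ∀ a n, MvPowerSeries.constantCoeff ((Δ a).coeff n) = 0)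
    (h1 : ∀ a n j, MvPowerSeries.coeff (Finsupp.single j 1) ((Δ a).coeff n) = (δ j a).coeff n)
    (hrank : ∀ x : k, ∃ a b c i j, det3 (fun t => (F₀ t).eval x) (fun t => (δ i t).eval x)
      (fun t => (δ j t).eval x) a b c ≠ 0)
    (hinf : ∃ a b c i j, det3 (fun t => (F₀ t).coeff D) (fun t => (δ i t).coeff (D - m))
      (fun t => (δ j t).coeff (D - m)) a b c ≠ 0) :
    Ideal.span {p | ∃ a b c i j, p = Mdet F₀ P Δ a b c i j} = ⊤ := by
  have hfam : ∀ a, (fam F₀ P Δ a).natDegree ≤ D := by
    intro a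
    refine natDegree_add_le_of_degree_le ((natDegree_map_le).trans (hF₀ a)) ?_
    refine (natDegree_mul_le_of_le ((natDegree_map_le).trans hP) (hΔ a)).trans ?_
    omega
  have hδ : ∀ j a, (δ j a).natDegree ≤ D - m := by
    intro j a
    rw [natDegree_le_iff_coeff_eq_zero]
    intro n hn
    rw [← h1 a n j, coeff_eq_zero_of_natDegree_lt (lt_of_le_of_lt (hΔ a) hn), map_zero]
  refine span_eq_top_of_no_common_root (MvPowerSeries.constantCoeff (σ := σ) (R := k))
    (fun r => ⟨MvPowerSeries.C r, MvPowerSeries.constantCoeff_C r⟩) _ (D + ((D - m) + (D - m))) ?_ ?_ ?_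
  · rintro _ ⟨a, b, c, i, j, rfl⟩
    exact det3_natDegree_le hfam (fun x => natDegree_mapDer_le _ (hΔ x))
      (fun x => natDegree_mapDer_le _ (hΔ x)) a b c
  · obtain ⟨a, b, c, i, j, h⟩ := hinf
    refine ⟨_, ⟨a, b, c, i, j, rfl⟩, ?_⟩
    rw [← coeff_map, map_Mdet h0 h1, det3_coeff hF₀ (hδ i) (hδ j)]
    exact h
  · intro x
    obtain ⟨a, b, c, i, j, h⟩ := hrank x
    refine ⟨_, ⟨a, b, c, i, j, rfl⟩, ?_⟩
    rw [map_Mdet h0 h1, det3_eval]
    exact h

end family

end Pool.Agent.Lib_MP_1858fb.SP
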