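import Mathlib

/-!
# Specialization of finitely many elements of an extension field
-/

namespace Pool.Agent.Lib_MP_1858fb.SP

/-- A nonzero finitely generated algebra over an algebraically closed field has a point. -/
theorem exists_algHom (k A : Type*) [Field k] [IsAlgClosed k] [CommRing A] [Nontrivial A]
    [Algebra k A] [Algebra.FiniteType k A] : Nonempty (A →ₐ[k] k) := by
  obtain ⟨m, hm⟩ := Ideal.exists_maximal A
  let _ : Field (A ⧸ m) := Ideal.Quotient.field m
  have hft : Algebra.FiniteType k (A ⧸ m) := inferInstance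
  have hfin : Module.Finite k (A ⧸ m) := finite_of_finite_type_of_isJacobsonRing k (A ⧸ m)
  have hbij := IsAlgClosed.algebraMap_bijective_of_isIntegral (k := k) (K := A ⧸ m)
  let e : k ≃ₐ[k] (A ⧸ m) := AlgEquiv.ofBijective (Algebra.ofId k (A ⧸ m)) hbij
  exact ⟨(e.symm : (A ⧸ m) →ₐ[k] k).comp (Ideal.Quotient.mkₐ k m)⟩

/-- A finite set `S` of elements of an extension field of an algebraically closed field `k` lies in a
`k`-algebra with a homomorphism to `k` which does not kill the nonzero elements of `S`. -/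
theorem exists_specialization {k K : Type*} [Field k] [IsAlgClosed k] [Field K] [Algebra k K]
    (S : Set K) (hS : S.Finite) : ∃ (A : Subalgebra k K) (φ : A →ₐ[k] k),
      S ⊆ (A : Set K) ∧ ∀ s : A, (s : K) ∈ S → (s : K) ≠ 0 → φ s ≠ 0 := by
  classical
  let T : Finset K := hS.toFinset ∪ hS.toFinset.image (fun x => x⁻¹)
  let A : Subalgebra k K := Algebra.adjoin k (T : Set K)
  have hft : Algebra.FiniteType k A :=
    (Subalgebra.fg_iff_finiteType A).mp (Subalgebra.fg_adjoin_finset T)
  obtain ⟨φ⟩ := exists_algHom k A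
  refine ⟨A, φ, fun x hx => ?_, fun s hs hs0 hφ => ?_⟩
  · exact Algebra.subset_adjoin (by simp [T, hx])
  · have hinv : (s : K)⁻¹ ∈ A := by
      refine Algebra.subset_adjoin ?_
      simp only [T, Finset.coe_union, Finset.coe_image, Set.Finite.coe_toFinset]
      exact Or.inr ⟨_, hs, rfl⟩
    have h1 : s * ⟨(s : K)⁻¹, hinv⟩ = 1 := by
      apply Subtype.ext
      simp [mul_inv_cancel₀ hs0]
    have h2 := congrArg φ h1
    rw [map_mul, hφ, zero_mul, map_one] at h2
    exact zero_ne_one h2

end Pool.Agent.Lib_MP_1858fb.SP
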